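import Mathlib

/-!
# Universal BPBp-ASE domains among finite-dimensional spaces

A sufficient condition for a finite-dimensional space to be a universal domain for the
Bishop-Phelps-Bollobás property with absolutely strongly exposing operators.
-/

set_option autoImplicit false

namespace Pool.Agent.V1176.UC

open Filter Topology Metric

universe u v

section Defs

variable (𝕜 : Type) [RCLike 𝕜]
variable {X : Type u} [NormedAddCommGroup X] [NormedSpace 𝕜 X]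
variable {Y : Type v} [NormedAddCommGroup Y] [NormedSpace 𝕜 Y]

/-- `T` is absolutely strongly exposing. -/
def IsASE (T : X →L[𝕜] Y) : Prop :=
  ∃ x₀ : X, ‖x₀‖ = 1 ∧ ∀ x : ℕ → X, (∀ n, ‖x n‖ ≤ 1) →
    Tendsto (fun n => ‖T (x n)‖) atTop (𝓝 ‖T‖) →
    ∃ σ : ℕ → ℕ, StrictMono σ ∧ ∃ c : 𝕜, ‖c‖ = 1 ∧
      Tendsto (fun n => x (σ n)) atTop (𝓝 (c • x₀))

variable (X Y)

/-- The pair `(X, Y)` has the BPBp-ASE. -/
def BPBpASE : Prop :=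
  ∀ ε : ℝ, 0 < ε → ∃ η : ℝ, 0 < η ∧ η < ε ∧
    ∀ T : X →L[𝕜] Y, ‖T‖ = 1 → ∀ x : X, ‖x‖ = 1 → 1 - η < ‖T x‖ →
      ∃ (S : X →L[𝕜] Y) (x₀ : X), IsASE 𝕜 S ∧ ‖x₀‖ = 1 ∧ ‖S‖ = 1 ∧ ‖S x₀‖ = 1 ∧
        ‖S - T‖ < ε ∧ ‖x - x₀‖ < ε

variable {X}

/-- `x` is a point of the sphere exposed by a functional of norm one -/
def Exposed (x : X) : Prop :=
  ‖x‖ = 1 ∧ ∃ g : X →L[𝕜] 𝕜, ‖g‖ ≤ 1 ∧ g x = 1 ∧ ∀ v, ‖v‖ ≤ 1 → g v = 1 → v = x

end Defs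

variable {𝕜 : Type} [RCLike 𝕜]
variable {X : Type u} [NormedAddCommGroup X] [NormedSpace 𝕜 X]
variable {Z : Type v} [NormedAddCommGroup Z] [NormedSpace 𝕜 Z]

/-- a rotation making a scalar nonnegative -/
theorem exists_rot (w : 𝕜) : ∃ c : 𝕜, ‖c‖ = 1 ∧ c * w = (‖w‖ : 𝕜) := by
  by_cases hw : w = 0
  · exact ⟨1, by simp, by simp [hw]⟩
  · have hw' : (‖w‖ : ℝ) ≠ 0 := norm_ne_zero_iff.2 hw
    refine ⟨(starRingEnd 𝕜) w / (‖w‖ : 𝕜), ?_, ?_⟩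
    · rw [norm_div, RCLike.norm_conj, RCLike.norm_ofReal, abs_of_nonneg (norm_nonneg _)]
      exact div_self hw'
    · have h1 : (starRingEnd 𝕜) w * w = ((‖w‖ : 𝕜)) ^ 2 := by
        rw [mul_comm, RCLike.mul_conj]
      have h2 : (‖w‖ : 𝕜) ≠ 0 := by
        intro h; apply hw'; exact_mod_cast h
      rw [div_mul_eq_mul_div, h1]
      field_simp

theorem eq_one_of_re {w : 𝕜} (h : ‖w‖ ≤ 1) (h' : 1 ≤ RCLike.re w) : w = 1 := by
  have h1 := RCLike.norm_sq_eq_def (z := w)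
  have h2 : ‖w‖ ^ 2 ≤ 1 := by nlinarith [norm_nonneg w]
  have h3 : RCLike.im w = 0 := by nlinarith
  have h4 : RCLike.re w = 1 := by nlinarith
  refine RCLike.ext ?_ ?_
  · rw [h4, RCLike.one_re]
  · rw [h3, RCLike.one_im]

/-- in a finite-dimensional space operators attain their norms -/
theorem exists_attain [FiniteDimensional 𝕜 X] (S : X →L[𝕜] Z) :
    ∃ v : X, ‖v‖ ≤ 1 ∧ ‖S v‖ = ‖S‖ := by
  have : ProperSpace X := FiniteDimensional.proper 𝕜 X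
  obtain ⟨v, hv, hmax⟩ := (isCompact_closedBall (0 : X) 1).exists_isMaxOn
    ⟨0, by simp⟩ (S.continuous.norm.continuousOn)
  have hv' : ‖v‖ ≤ 1 := by simpa using hv
  refine ⟨v, hv', le_antisymm ?_ ?_⟩
  · calc ‖S v‖ ≤ ‖S‖ * ‖v‖ := S.le_opNorm v
      _ ≤ ‖S‖ * 1 := by gcongr
      _ = ‖S‖ := mul_one _
  · by_contra hcon
    push Not at hcon
    obtain ⟨w, hw, hw'⟩ := S.exists_lt_apply_of_lt_opNorm hcon
    have := hmax (show w ∈ closedBall (0 : X) 1 by simpa using hw.le)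
    simp only [Set.mem_ofPred_eq] at this
    linarith

theorem norm_of_attain {S : X →L[𝕜] Z} {v : X} (hv : ‖v‖ ≤ 1) (h : ‖S v‖ = ‖S‖) (h0 : 0 < ‖S‖) :
    ‖v‖ = 1 := by
  refine le_antisymm hv ?_
  have h1 := S.le_opNorm v
  rw [h] at h1
  by_contra hcon
  push Not at hcon
  nlinarith

/-- the perturbation by an operator of rank one -/
theorem pert [FiniteDimensional 𝕜 X] {T : X →L[𝕜] Z} (hT : ‖T‖ ≤ 1) {ε r : ℝ} (hε : 0 < ε)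
    (hrε : r ≤ ε) (hr1 : r ≤ 1) {x₀ : X} (hx₀ : ‖x₀‖ = 1) {g : X →L[𝕜] 𝕜} (hg : ‖g‖ ≤ 1)
    (hgx : g x₀ = 1) (hTx : 1 - r < ‖T x₀‖) :
    ∃ (S : X →L[𝕜] Z) (x₁ : X), ‖S‖ = 1 ∧ ‖x₁‖ = 1 ∧ ‖S x₁‖ = 1 ∧ ‖S - T‖ ≤ 2 * ε ∧
      1 - r / ε ≤ RCLike.re (g x₁) := by
  have hpos : 0 < ‖T x₀‖ := by linarith
  set z : Z := ((‖T x₀‖ : ℝ) : 𝕜)⁻¹ • T x₀ with hz
  have hzn : ‖z‖ = 1 := by
    rw [hz, norm_smul, norm_inv, RCLike.norm_ofReal, abs_of_pos hpos]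
    exact inv_mul_cancel₀ hpos.ne'
  have hTz : T x₀ = ((‖T x₀‖ : ℝ) : 𝕜) • z := by
    rw [hz, smul_smul, mul_inv_cancel₀, one_smul]
    exact_mod_cast hpos.ne'
  set S' : X →L[𝕜] Z := T + ((ε : ℝ) : 𝕜) • g.smulRight z with hS'
  have hS'v : ∀ v, S' v = T v + ((ε : ℝ) : 𝕜) • (g v • z) := fun v => by
    simp [hS', ContinuousLinearMap.smulRight_apply]
  have hle : ∀ v, ‖v‖ ≤ 1 → ‖S' v‖ ≤ 1 + ε * ‖g v‖ := by
    intro v hv
    rw [hS'v]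
    refine le_trans (norm_add_le _ _) ?_
    rw [norm_smul, norm_smul, hzn, mul_one, RCLike.norm_ofReal, abs_of_pos hε]
    have : ‖T v‖ ≤ 1 := by
      calc ‖T v‖ ≤ ‖T‖ * ‖v‖ := T.le_opNorm v
        _ ≤ 1 * 1 := by gcongr
        _ = 1 := one_mul 1
    linarith
  have hgle : ∀ v, ‖v‖ ≤ 1 → ‖g v‖ ≤ 1 := by
    intro v hv
    calc ‖g v‖ ≤ ‖g‖ * ‖v‖ := g.le_opNorm v
      _ ≤ 1 * 1 := by gcongr
      _ = 1 := one_mul 1
  have hx₀S : ‖S' x₀‖ = ‖T x₀‖ + ε := by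
    rw [hS'v, hgx, one_smul]
    nth_rewrite 1 [hTz]
    rw [← add_smul, norm_smul, hzn, mul_one, ← RCLike.ofReal_add, RCLike.norm_ofReal,
      abs_of_pos (by linarith)]
  have hlow : ‖T x₀‖ + ε ≤ ‖S'‖ := by
    rw [← hx₀S]
    calc ‖S' x₀‖ ≤ ‖S'‖ * ‖x₀‖ := S'.le_opNorm x₀
      _ = ‖S'‖ := by rw [hx₀, mul_one]
  obtain ⟨v, hv, hvS⟩ := exists_attain S'
  have hm1 : 1 ≤ ‖S'‖ := by linarith
  have hm0 : 0 < ‖S'‖ := by linarith
  have hm2 : ‖S'‖ ≤ 1 + ε := by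
    rw [← hvS]
    have := hle v hv
    have := hgle v hv
    nlinarith
  have hv1 : ‖v‖ = 1 := norm_of_attain hv hvS hm0
  have hgv : 1 - r / ε ≤ ‖g v‖ := by
    have h1 := hle v hv
    rw [hvS] at h1
    have h2 : ε - r ≤ ε * ‖g v‖ := by linarith
    have h3 : 1 - r / ε = (ε - r) / ε := by field_simp
    rw [h3, div_le_iff₀ hε]
    linarith
  obtain ⟨c, hc, hcg⟩ := exists_rot (g v)
  refine ⟨((‖S'‖ : ℝ) : 𝕜)⁻¹ • S', c • v, ?_, ?_, ?_, ?_, ?_⟩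
  · rw [norm_smul, norm_inv, RCLike.norm_ofReal, abs_of_pos hm0]
    exact inv_mul_cancel₀ hm0.ne'
  · rw [norm_smul, hc, hv1, one_mul]
  · rw [smul_apply, norm_smul, norm_inv, RCLike.norm_ofReal, abs_of_pos hm0,
      map_smul, norm_smul, hc, one_mul, hvS]
    exact inv_mul_cancel₀ hm0.ne'
  · have h1 : ‖((‖S'‖ : ℝ) : 𝕜)⁻¹ • S' - S'‖ ≤ ε := by
      have h2 : ((‖S'‖ : ℝ) : 𝕜)⁻¹ • S' - S' = (((‖S'‖⁻¹ - 1 : ℝ)) : 𝕜) • S' := by
        rw [RCLike.ofReal_sub, RCLike.ofReal_inv, RCLike.ofReal_one, sub_smul, one_smul]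
      rw [h2, norm_smul, RCLike.norm_ofReal]
      have h3 : ‖S'‖⁻¹ ≤ 1 := inv_le_one_of_one_le₀ hm1
      rw [abs_of_nonpos (by linarith)]
      have h4 : ‖S'‖⁻¹ * ‖S'‖ = 1 := inv_mul_cancel₀ hm0.ne'
      nlinarith
    have h5 : ‖S' - T‖ ≤ ε := by
      have h6 : S' - T = ((ε : ℝ) : 𝕜) • g.smulRight z := by rw [hS']; abel
      rw [h6, norm_smul, ContinuousLinearMap.norm_smulRight_apply, hzn, mul_one,
        RCLike.norm_ofReal, abs_of_pos hε]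
      nlinarith [norm_nonneg g]
    calc ‖((‖S'‖ : ℝ) : 𝕜)⁻¹ • S' - T‖ = ‖(((‖S'‖ : ℝ) : 𝕜)⁻¹ • S' - S') + (S' - T)‖ := by
          congr 1; abel
      _ ≤ _ := norm_add_le _ _
      _ ≤ 2 * ε := by linarith
  · rw [map_smul, smul_eq_mul, hcg, RCLike.ofReal_re]
    exact hgv

/-- making an operator absolutely strongly exposing at an exposed point -/
theorem ase_step [FiniteDimensional 𝕜 X] {S : X →L[𝕜] Z} (hS : ‖S‖ = 1) {x₁ : X}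
    (hx₁ : Exposed 𝕜 x₁) (hSx : ‖S x₁‖ = 1) {ε : ℝ} (hε : 0 < ε) :
    ∃ S₂ : X →L[𝕜] Z, IsASE 𝕜 S₂ ∧ ‖S₂‖ = 1 ∧ ‖S₂ x₁‖ = 1 ∧ ‖S₂ - S‖ ≤ 2 * ε := by
  have : ProperSpace X := FiniteDimensional.proper 𝕜 X
  obtain ⟨hx1, g, hg, hgx, huniq⟩ := hx₁
  set S' : X →L[𝕜] Z := S + ((ε : ℝ) : 𝕜) • g.smulRight (S x₁) with hS'
  have hS'v : ∀ v, S' v = S v + ((ε : ℝ) : 𝕜) • (g v • S x₁) := fun v => by
    simp [hS', ContinuousLinearMap.smulRight_apply]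
  have hle : ∀ v, ‖S' v‖ ≤ ‖S v‖ + ε * ‖g v‖ := by
    intro v
    rw [hS'v]
    refine le_trans (norm_add_le _ _) ?_
    rw [norm_smul, norm_smul, hSx, mul_one, RCLike.norm_ofReal, abs_of_pos hε]
  have hSle : ∀ v, ‖S v‖ ≤ ‖v‖ := fun v => by
    have := S.le_opNorm v; rwa [hS, one_mul] at this
  have hgle : ∀ v, ‖g v‖ ≤ ‖v‖ := by
    intro v
    calc ‖g v‖ ≤ ‖g‖ * ‖v‖ := g.le_opNorm v
      _ ≤ 1 * ‖v‖ := by gcongr
      _ = ‖v‖ := one_mul _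
  have hx₁S : ‖S' x₁‖ = 1 + ε := by
    rw [hS'v, hgx, one_smul]
    have : S x₁ + ((ε : ℝ) : 𝕜) • S x₁ = (((1 + ε : ℝ)) : 𝕜) • S x₁ := by
      rw [RCLike.ofReal_add, RCLike.ofReal_one, add_smul, one_smul]
    rw [this, norm_smul, hSx, mul_one, RCLike.norm_ofReal, abs_of_pos (by linarith)]
  have hn : ‖S'‖ = 1 + ε := by
    apply le_antisymm
    · refine S'.opNorm_le_bound (by linarith) fun v => ?_
      have h1 := hle v
      have h2 := hSle v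
      have h3 := hgle v
      nlinarith
    · rw [← hx₁S]
      calc ‖S' x₁‖ ≤ ‖S'‖ * ‖x₁‖ := S'.le_opNorm x₁
        _ = ‖S'‖ := by rw [hx1, mul_one]
  have hε1 : (0 : ℝ) < 1 + ε := by linarith
  set S₂ : X →L[𝕜] Z := ((1 + ε : ℝ) : 𝕜)⁻¹ • S' with hS₂
  have hS₂v : ∀ v, ‖S₂ v‖ = (1 + ε)⁻¹ * ‖S' v‖ := fun v => by
    rw [hS₂, smul_apply, norm_smul, norm_inv, RCLike.norm_ofReal,
      abs_of_pos hε1]
  have hS₂n : ‖S₂‖ = 1 := by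
    rw [hS₂, norm_smul, norm_inv, RCLike.norm_ofReal, abs_of_pos hε1, hn]
    exact inv_mul_cancel₀ hε1.ne'
  refine ⟨S₂, ⟨x₁, hx1, ?_⟩, hS₂n, ?_, ?_⟩
  · intro x hx hlim
    obtain ⟨w, hw, σ, hσ, hσw⟩ := (isCompact_closedBall (0 : X) 1).tendsto_subseq
      (fun n => show x n ∈ closedBall (0 : X) 1 by simpa using hx n)
    have hw1 : ‖w‖ ≤ 1 := by simpa using hw
    refine ⟨σ, hσ, ?_⟩
    have h1 : Tendsto (fun n => ‖S₂ (x (σ n))‖) atTop (𝓝 ‖S₂ w‖) :=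
      ((S₂.continuous.tendsto w).comp hσw).norm
    have h2 : Tendsto (fun n => ‖S₂ (x (σ n))‖) atTop (𝓝 ‖S₂‖) := hlim.comp hσ.tendsto_atTop
    have h3 : ‖S₂ w‖ = 1 := by rw [← hS₂n]; exact tendsto_nhds_unique h1 h2
    rw [hS₂v] at h3
    have h4 : ‖S' w‖ = 1 + ε := by
      field_simp at h3
      linarith
    have h5 := hle w
    have h6 := hSle w
    have h7 := hgle w
    have h8 : 1 ≤ ‖g w‖ := by
      by_contra hcon
      push Not at hcon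
      nlinarith
    have h9 : ‖g w‖ = 1 := le_antisymm (h7.trans hw1) h8
    obtain ⟨c, hc, hcg⟩ := exists_rot (g w)
    have hc0 : c ≠ 0 := by
      intro h; rw [h, norm_zero] at hc; exact zero_ne_one hc
    have h10 : c • w = x₁ := by
      apply huniq
      · rw [norm_smul, hc, one_mul]; exact hw1
      · rw [map_smul, smul_eq_mul, hcg, h9, RCLike.ofReal_one]
    refine ⟨c⁻¹, by rw [norm_inv, hc, inv_one], ?_⟩
    rw [← h10, smul_smul, inv_mul_cancel₀ hc0, one_smul]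
    exact hσw
  · rw [hS₂v, hx₁S]
    exact inv_mul_cancel₀ hε1.ne'
  · have h1 : S₂ - S = ((1 + ε : ℝ) : 𝕜)⁻¹ • (((ε : ℝ) : 𝕜) • (g.smulRight (S x₁) - S)) := by
      have h2 : ((1 + ε : ℝ) : 𝕜) ≠ 0 := by exact_mod_cast hε1.ne'
      have h3 : S' - ((1 + ε : ℝ) : 𝕜) • S = ((ε : ℝ) : 𝕜) • (g.smulRight (S x₁) - S) := by
        rw [hS', RCLike.ofReal_add, RCLike.ofReal_one, add_smul, one_smul, smul_sub]
        abel
      rw [← h3, smul_sub, smul_smul, inv_mul_cancel₀ h2, one_smul]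
    rw [h1, norm_smul, norm_smul, norm_inv, RCLike.norm_ofReal, RCLike.norm_ofReal,
      abs_of_pos hε1, abs_of_pos hε]
    have h4 : ‖g.smulRight (S x₁) - S‖ ≤ 2 := by
      refine le_trans (norm_sub_le _ _) ?_
      rw [ContinuousLinearMap.norm_smulRight_apply, hSx, hS, mul_one]
      linarith
    have h5 : (1 + ε)⁻¹ ≤ 1 := inv_le_one_of_one_le₀ (by linarith)
    have h6 : 0 < (1 + ε)⁻¹ := by positivity
    have h7 : ε * ‖g.smulRight (S x₁) - S‖ ≤ 2 * ε := by nlinarith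
    calc (1 + ε)⁻¹ * (ε * ‖g.smulRight (S x₁) - S‖) ≤ 1 * (2 * ε) := by gcongr
      _ = 2 * ε := one_mul _

/-- slices at exposed points are small -/
theorem slice_small [FiniteDimensional 𝕜 X] {x : X} {g : X →L[𝕜] 𝕜} (hg : ‖g‖ ≤ 1)
    (huniq : ∀ v, ‖v‖ ≤ 1 → g v = 1 → v = x) {ε : ℝ} (hε : 0 < ε) :
    ∃ δ : ℝ, 0 < δ ∧ ∀ v, ‖v‖ ≤ 1 → 1 - δ ≤ RCLike.re (g v) → ‖v - x‖ < ε := by
  have : ProperSpace X := FiniteDimensional.proper 𝕜 X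
  by_contra hcon
  push Not at hcon
  choose v hv hv1 hv2 using fun n : ℕ => hcon (1 / ((n : ℝ) + 1)) (by positivity)
  obtain ⟨w, hw, σ, hσ, hσw⟩ := (isCompact_closedBall (0 : X) 1).tendsto_subseq
      (fun n => show v n ∈ closedBall (0 : X) 1 by simpa using hv n)
  have hw1 : ‖w‖ ≤ 1 := by simpa using hw
  have h1 : Tendsto (fun n => RCLike.re (g (v (σ n)))) atTop (𝓝 (RCLike.re (g w))) :=
    ((RCLike.continuous_re.comp g.continuous).tendsto w).comp hσw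
  have h2 : Tendsto (fun n : ℕ => 1 - 1 / (((σ n : ℕ) : ℝ) + 1)) atTop (𝓝 (1 - 0)) :=
    tendsto_const_nhds.sub ((tendsto_one_div_add_atTop_nhds_zero_nat (𝕜 := ℝ)).comp
      hσ.tendsto_atTop)
  have h3 : (1 : ℝ) ≤ RCLike.re (g w) := by
    have := le_of_tendsto_of_tendsto' h2 h1 (fun n => hv1 (σ n))
    linarith
  have h4 : g w = 1 := by
    refine eq_one_of_re ?_ h3
    calc ‖g w‖ ≤ ‖g‖ * ‖w‖ := g.le_opNorm w
      _ ≤ 1 * 1 := by gcongr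
      _ = 1 := one_mul 1
  have h5 := huniq w hw1 h4
  have h6 : Tendsto (fun n => ‖v (σ n) - x‖) atTop (𝓝 ‖w - x‖) := (hσw.sub_const x).norm
  have h7 : ε ≤ ‖w - x‖ := ge_of_tendsto' h6 (fun n => hv2 (σ n))
  rw [h5, sub_self, norm_zero] at h7
  linarith

/-- the sufficient condition -/
theorem bpbp_of_crit [FiniteDimensional 𝕜 X]
    (H : ∀ (x : X) (φ : X →L[𝕜] 𝕜), ‖x‖ = 1 → ‖φ‖ ≤ 1 → φ x = 1 → Exposed 𝕜 x ∨
      ∀ ε : ℝ, 0 < ε → ε ≤ 1 → ∃ (x₀ : X) (g : X →L[𝕜] 𝕜) (r : ℝ), ‖x₀‖ = 1 ∧ ‖g‖ ≤ 1 ∧ g x₀ = 1 ∧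
        0 < r ∧ r ≤ ε ∧ 1 - r < RCLike.re (φ x₀) ∧
        ∀ v, ‖v‖ ≤ 1 → 1 - r / ε ≤ RCLike.re (g v) → ‖v - x‖ < ε ∧ (‖v‖ = 1 → Exposed 𝕜 v)) :
    BPBpASE 𝕜 X Z := by
  have : ProperSpace X := FiniteDimensional.proper 𝕜 X
  have : ProperSpace (X →L[𝕜] 𝕜) := FiniteDimensional.proper 𝕜 _
  have B1 : ∀ (x : X) (φ : X →L[𝕜] 𝕜), ‖x‖ = 1 → ‖φ‖ ≤ 1 → φ x = 1 → ∀ ε : ℝ, 0 < ε → ε ≤ 1 →
      ∃ (x₀ : X) (g : X →L[𝕜] 𝕜) (r : ℝ), ‖x₀‖ = 1 ∧ ‖g‖ ≤ 1 ∧ g x₀ = 1 ∧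
        0 < r ∧ r ≤ ε ∧ 1 - r < RCLike.re (φ x₀) ∧
        ∀ v, ‖v‖ ≤ 1 → 1 - r / ε ≤ RCLike.re (g v) → ‖v - x‖ < ε := by
    intro x φ hx hφ hφx ε hε hε1
    rcases H x φ hx hφ hφx with h | h
    · obtain ⟨-, g, hg, hgx, huniq⟩ := h
      obtain ⟨δ, hδ, hδ'⟩ := slice_small hg huniq hε
      refine ⟨x, g, min (δ * ε) ε, hx, hg, hgx, by positivity, min_le_right _ _, ?_, ?_⟩
      · rw [hφx, RCLike.one_re]
        have : 0 < min (δ * ε) ε := by positivity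
        linarith
      · intro v hv hgv
        refine hδ' v hv (le_trans ?_ hgv)
        have : min (δ * ε) ε / ε ≤ δ := by
          rw [div_le_iff₀ hε]; exact min_le_left _ _
        linarith
    · obtain ⟨x₀, g, r, h1, h2, h3, h4, h5, h6, h7⟩ := h ε hε hε1
      exact ⟨x₀, g, r, h1, h2, h3, h4, h5, h6, fun v hv hgv => (h7 v hv hgv).1⟩
  intro ε₀ hε₀
  by_contra hcon
  push Not at hcon
  set ε : ℝ := min ε₀ 1 / 8 with hεdef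
  have hεpos : 0 < ε := by positivity
  have hε1 : ε ≤ 1 := by
    have : min ε₀ 1 ≤ 1 := min_le_right _ _
    linarith
  have hεε₀ : 8 * ε ≤ ε₀ := by
    have : min ε₀ 1 ≤ ε₀ := min_le_left _ _
    linarith
  choose T hT x hx hTx hbad using fun n : ℕ => hcon (ε₀ / ((n : ℝ) + 2)) (by positivity)
    (by
      rw [div_lt_iff₀ (by positivity)]
      have : (0 : ℝ) ≤ n := Nat.cast_nonneg n
      nlinarith)
  choose z hz hzT using fun n => exists_dual_vector'' 𝕜 (T n (x n))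
  set φ : ℕ → (X →L[𝕜] 𝕜) := fun n => (z n).comp (T n) with hφdef
  have hφn : ∀ n, ‖φ n‖ ≤ 1 := fun n => by
    refine le_trans ((z n).opNorm_comp_le (T n)) ?_
    rw [hT, mul_one]; exact hz n
  obtain ⟨⟨xl, φl⟩, hmem, σ, hσ, hlim⟩ :=
    ((isCompact_closedBall (0 : X) 1).prod (isCompact_closedBall (0 : X →L[𝕜] 𝕜) 1)).tendsto_subseq
      (x := fun n => (x n, φ n)) (fun n => by
        refine Set.mem_prod.2 ⟨by simp [hx n], by simpa using hφn n⟩)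
  have hlx : Tendsto (fun n => x (σ n)) atTop (𝓝 xl) := (continuous_fst.tendsto _).comp hlim
  have hlφ : Tendsto (fun n => φ (σ n)) atTop (𝓝 φl) := (continuous_snd.tendsto _).comp hlim
  have hxl : ‖xl‖ = 1 := by
    refine tendsto_nhds_unique hlx.norm ?_
    simp only [hx]
    exact tendsto_const_nhds
  have hφl : ‖φl‖ ≤ 1 := by simpa using hmem.2
  have hev : Tendsto (fun n => φ (σ n) (x (σ n))) atTop (𝓝 (φl xl)) := (isBoundedBilinearMap_apply.continuous.tendsto (φl, xl)).comp (hlφ.prodMk_nhds hlx)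
  have hre : Tendsto (fun n => RCLike.re (φ (σ n) (x (σ n)))) atTop (𝓝 (RCLike.re (φl xl))) :=
    (RCLike.continuous_re.tendsto _).comp hev
  have hlow : Tendsto (fun n : ℕ => 1 - ε₀ / (((σ n : ℕ) : ℝ) + 2)) atTop (𝓝 (1 - 0)) := by
    refine tendsto_const_nhds.sub ?_
    have h1 : Tendsto (fun n : ℕ => ε₀ / ((n : ℝ) + 2)) atTop (𝓝 0) := by
      refine Tendsto.div_atTop tendsto_const_nhds ?_
      exact tendsto_atTop_add_const_right _ _ tendsto_natCast_atTop_atTop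
    exact h1.comp hσ.tendsto_atTop
  have hφx : φl xl = 1 := by
    refine eq_one_of_re ?_ ?_
    · calc ‖φl xl‖ ≤ ‖φl‖ * ‖xl‖ := φl.le_opNorm xl
        _ ≤ 1 * 1 := by rw [hxl]; gcongr
        _ = 1 := one_mul 1
    · have h1 := le_of_tendsto_of_tendsto' hlow hre (fun n => by
        have h2 : φ (σ n) (x (σ n)) = ((‖T (σ n) (x (σ n))‖ : ℝ) : 𝕜) := by
          simp only [hφdef, ContinuousLinearMap.comp_apply]
          exact hzT (σ n)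
        rw [h2, RCLike.ofReal_re]
        exact (hTx (σ n)).le)
      linarith
  obtain ⟨x₀, g, r, hx₀, hg, hgx, hr, hrε, hφr, hsl⟩ := B1 xl φl hxl hφl hφx ε hεpos hε1
  have hE1 : ∀ᶠ n in atTop, 1 - r < RCLike.re (φ (σ n) x₀) := by
    have h1 : Tendsto (fun n => RCLike.re (φ (σ n) x₀)) atTop (𝓝 (RCLike.re (φl x₀))) :=
      (RCLike.continuous_re.tendsto _).comp ((isBoundedBilinearMap_apply.continuous.tendsto (φl, x₀)).comp
        (hlφ.prodMk_nhds tendsto_const_nhds))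
    exact h1.eventually (lt_mem_nhds hφr)
  have hE2 : ∀ᶠ n in atTop, ‖x (σ n) - xl‖ < ε := by
    have h1 : Tendsto (fun n => ‖x (σ n) - xl‖) atTop (𝓝 0) := by
      have := (hlx.sub_const xl).norm
      rwa [sub_self, norm_zero] at this
    exact h1.eventually (gt_mem_nhds hεpos)
  obtain ⟨n, hn1, hn2⟩ := (hE1.and hE2).exists
  set m := σ n with hm
  have hTx₀ : 1 - r < ‖T m x₀‖ := by
    refine lt_of_lt_of_le hn1 ?_
    refine le_trans (RCLike.re_le_norm _) ?_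
    simp only [hφdef, ContinuousLinearMap.comp_apply]
    calc ‖z m (T m x₀)‖ ≤ ‖z m‖ * ‖T m x₀‖ := (z m).le_opNorm _
      _ ≤ 1 * ‖T m x₀‖ := by gcongr; exact hz m
      _ = _ := one_mul _
  obtain ⟨S₁, x₁, hS₁, hx₁, hSx₁, hST₁, hgx₁⟩ :=
    pert (hT m).le hεpos hrε (hrε.trans hε1) hx₀ hg hgx hTx₀
  have hx₁l : ‖x₁ - xl‖ < ε := hsl x₁ hx₁.le hgx₁
  -- the final contradiction from an exposed point
  have final : ∀ (S : X →L[𝕜] Z) (y : X), ‖S‖ = 1 → Exposed 𝕜 y → ‖S y‖ = 1 →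
      ‖S - T m‖ ≤ 4 * ε → ‖x m - y‖ < 3 * ε → False := by
    intro S y hS hy hSy hST hxy
    obtain ⟨S₂, h1, h2, h3, h4⟩ := ase_step hS hy hSy hεpos
    have h5 : ‖S₂ - T m‖ < ε₀ := by
      calc ‖S₂ - T m‖ = ‖(S₂ - S) + (S - T m)‖ := by congr 1; abel
        _ ≤ ‖S₂ - S‖ + ‖S - T m‖ := norm_add_le _ _
        _ ≤ 6 * ε := by linarith
        _ < ε₀ := by linarith
    have h6 := hbad m S₂ y h1 hy.1 h2 h3 h5
    linarith
  have hxm : ‖x m - x₁‖ < 2 * ε := by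
    calc ‖x m - x₁‖ = ‖(x m - xl) - (x₁ - xl)‖ := by congr 1; abel
      _ ≤ ‖x m - xl‖ + ‖x₁ - xl‖ := norm_sub_le _ _
      _ < 2 * ε := by linarith
  by_cases hexp : Exposed 𝕜 x₁
  · exact final S₁ x₁ hS₁ hexp hSx₁ (by linarith) (by linarith)
  · obtain ⟨z', hz', hz'S⟩ := exists_dual_vector'' 𝕜 (S₁ x₁)
    have hφ' : ‖z'.comp S₁‖ ≤ 1 := by
      refine le_trans (z'.opNorm_comp_le S₁) ?_
      rw [hS₁, mul_one]; exact hz'
    have hφ'x : (z'.comp S₁) x₁ = 1 := by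
      rw [ContinuousLinearMap.comp_apply, hz'S, hSx₁, RCLike.ofReal_one]
    obtain ⟨y₀, g', r', hy₀, hg', hgy', hr', hrε', hφr', hsl'⟩ :=
      (H x₁ (z'.comp S₁) hx₁ hφ' hφ'x).resolve_left hexp ε hεpos hε1
    have hSy₀ : 1 - r' < ‖S₁ y₀‖ := by
      refine lt_of_lt_of_le hφr' ?_
      refine le_trans (RCLike.re_le_norm _) ?_
      rw [ContinuousLinearMap.comp_apply]
      calc ‖z' (S₁ y₀)‖ ≤ ‖z'‖ * ‖S₁ y₀‖ := z'.le_opNorm _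
        _ ≤ 1 * ‖S₁ y₀‖ := by gcongr
        _ = _ := one_mul _
    obtain ⟨S₂, y₁, hS₂, hy₁, hSy₁, hST₂, hgy₁⟩ :=
      pert hS₁.le hεpos hrε' (hrε'.trans hε1) hy₀ hg' hgy' hSy₀
    obtain ⟨h1, h2⟩ := hsl' y₁ hy₁.le hgy₁
    refine final S₂ y₁ hS₂ (h2 hy₁) hSy₁ ?_ ?_
    · calc ‖S₂ - T m‖ = ‖(S₂ - S₁) + (S₁ - T m)‖ := by congr 1; abel
        _ ≤ ‖S₂ - S₁‖ + ‖S₁ - T m‖ := norm_add_le _ _
        _ ≤ 4 * ε := by linarith
    · calc ‖x m - y₁‖ = ‖(x m - x₁) - (y₁ - x₁)‖ := by congr 1; abel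
        _ ≤ ‖x m - x₁‖ + ‖y₁ - x₁‖ := norm_sub_le _ _
        _ < 3 * ε := by linarith

end Pool.Agent.V1176.UC
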