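import Pool.Agent.V1176.UC.Flat

/-! # The space is a universal domain -/

set_option autoImplicit false

namespace Pool.Agent.V1176.UC

open Filter Topology Metric BoundedContinuousFunction

universe v

section

variable {𝕜 : Type} [RCLike 𝕜]

/-- the vertices -/
noncomputable def UU (𝕜 : Type) [RCLike 𝕜] (n : ℕ) : VV 𝕜 := ![cc 𝕜 n, ee 𝕜 n, 1]

theorem LL_UU (n : ℕ) : LL n (UU 𝕜 n) = ((1 + sig n : ℝ) : 𝕜) := by
  rw [UU, LL_unit, ee]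
  have h8 : th 𝕜 n * (starRingEnd 𝕜) (th 𝕜 n) = 1 := by
    rw [RCLike.mul_conj, norm_th]; simp
  have h10 : ((aa n : ℝ) : 𝕜) * ((bb n : ℝ) : 𝕜) = ((tau n : ℝ) : 𝕜) + ((sig n : ℝ) : 𝕜) := by
    rw [← RCLike.ofReal_mul, aa_mul, RCLike.ofReal_add]
  rw [show ((aa n : ℝ) : 𝕜) * th 𝕜 n * (((bb n : ℝ) : 𝕜) * (starRingEnd 𝕜) (th 𝕜 n)) =
    (((aa n : ℝ) : 𝕜) * ((bb n : ℝ) : 𝕜)) * (th 𝕜 n * (starRingEnd 𝕜) (th 𝕜 n)) by ring, h8, h10]
  push_cast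
  ring

theorem norm_LL_UU (m n : ℕ) : ‖LL m (UU 𝕜 n)‖ ≤ (1 - tau m) + aa m * bb n := by
  rw [UU, LL_unit]
  refine le_trans (norm_add_le _ _) ?_
  have h1 := tau_le m
  rw [norm_mul, norm_mul, norm_th, norm_ee, RCLike.norm_ofReal, RCLike.norm_ofReal,
    abs_of_pos (aa_pos m), abs_of_nonneg (by linarith), mul_one]

theorem AA_UU_sq (m n : ℕ) : ‖AA (m + 2) (UU 𝕜 n)‖ ^ 2 ≤
    ((1 - tau m) + aa m * bb n) ^ 2 + 2 * mu m ^ 2 := by
  have h1 := norm_AA2 m (UU 𝕜 n)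
  have h2 := norm_LL_UU (𝕜 := 𝕜) m n
  have h3 : ‖(UU 𝕜 n) 0 - cc 𝕜 m * (UU 𝕜 n) 2‖ ≤ 6 / 5 := by
    have : (UU 𝕜 n) 0 - cc 𝕜 m * (UU 𝕜 n) 2 = cc 𝕜 n - cc 𝕜 m := by simp [UU]
    rw [this]
    refine le_trans (norm_sub_le _ _) ?_
    have := norm_cc_le (𝕜 := 𝕜) n
    have := norm_cc_le (𝕜 := 𝕜) m
    linarith
  have h4 : ‖(UU 𝕜 n) 1 - ee 𝕜 m * (UU 𝕜 n) 2‖ ≤ 1 / 2 := by
    have : (UU 𝕜 n) 1 - ee 𝕜 m * (UU 𝕜 n) 2 = ee 𝕜 n - ee 𝕜 m := by simp [UU]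
    rw [this]
    refine le_trans (norm_sub_le _ _) ?_
    have := norm_ee_le (𝕜 := 𝕜) n
    have := norm_ee_le (𝕜 := 𝕜) m
    linarith
  have h5 : ‖LL m (UU 𝕜 n)‖ ^ 2 ≤ ((1 - tau m) + aa m * bb n) ^ 2 :=
    pow_le_pow_left₀ (norm_nonneg _) h2 2
  have h6 : ‖(UU 𝕜 n) 0 - cc 𝕜 m * (UU 𝕜 n) 2‖ ^ 2 ≤ (6 / 5) ^ 2 :=
    pow_le_pow_left₀ (norm_nonneg _) h3 2
  have h7 : ‖(UU 𝕜 n) 1 - ee 𝕜 m * (UU 𝕜 n) 2‖ ^ 2 ≤ (1 / 2) ^ 2 :=
    pow_le_pow_left₀ (norm_nonneg _) h4 2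
  have h8 : 0 ≤ mu m ^ 2 := sq_nonneg _
  rw [h1]
  nlinarith

theorem AA_UU_self (n : ℕ) : ‖AA (n + 2) (UU 𝕜 n)‖ = 1 + sig n := by
  have h1 := norm_AA2 n (UU 𝕜 n)
  have hs := sig_pos n
  have h3 : (UU 𝕜 n) 0 - cc 𝕜 n * (UU 𝕜 n) 2 = 0 := by simp [UU]
  have h4 : (UU 𝕜 n) 1 - ee 𝕜 n * (UU 𝕜 n) 2 = 0 := by simp [UU]
  rw [h3, h4, LL_UU, norm_zero, RCLike.norm_ofReal, abs_of_pos (by linarith)] at h1
  have h5 : ‖AA (n + 2) (UU 𝕜 n)‖ ^ 2 = (1 + sig n) ^ 2 := by rw [h1]; ring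
  exact (pow_left_inj₀ (norm_nonneg _) (by linarith) (by norm_num)).1 h5

theorem norm_UU (n : ℕ) : ‖el (UU 𝕜 n)‖ = 1 + sig n := by
  have hs := sig_pos n
  apply le_antisymm
  · refine el_le (by linarith) fun k => ?_
    match k with
    | 0 =>
      rw [norm_AA0]
      have : (UU 𝕜 n) 2 = 1 := by simp [UU]
      rw [this, norm_one]; linarith
    | 1 =>
      have h1 := norm_AA1 (UU 𝕜 n)
      have e0 : (UU 𝕜 n) 0 = cc 𝕜 n := by simp [UU]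
      have e1 : (UU 𝕜 n) 1 = ee 𝕜 n := by simp [UU]
      have e2 : (UU 𝕜 n) 2 = 1 := by simp [UU]
      rw [e0, e1, e2, norm_ee, norm_one] at h1
      have h2 := norm_cc 𝕜 n
      have h3 := bb_pos n
      have h4 := bb_le n
      have h5 : ‖cc 𝕜 n‖ ^ 2 ≤ ((1 - bb n) * (3 / 5)) ^ 2 :=
        pow_le_pow_left₀ (norm_nonneg _) h2 2
      have h6 : ‖AA 1 (UU 𝕜 n)‖ ^ 2 ≤ 1 := by nlinarith
      by_contra hcon
      push Not at hcon
      nlinarith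
    | (m + 2) =>
      have h1 := AA_UU_sq (𝕜 := 𝕜) m n
      have hm := mu_pos m
      have hm' := mu_le m
      have ha := aa_pos m
      have hb := bb_pos n
      have ht := tau_pos m
      have ht' : tau m = 8 * mu m ^ 2 := rfl
      have hab : 0 < aa m * bb n := by positivity
      rcases lt_trichotomy m n with h | h | h
      · have h2 := earlier h
        have h3 : ((1 - tau m) + aa m * bb n) ^ 2 ≤ (1 - tau m / 2) ^ 2 := by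
          have := tau_le m
          apply pow_le_pow_left₀ (by linarith)
          linarith
        have h4 : (1 - tau m / 2) ^ 2 + 2 * mu m ^ 2 ≤ 1 := by
          have h40 : mu m ^ 2 ≤ 1 / 256 := by nlinarith
          have h41 : mu m ^ 2 * mu m ^ 2 ≤ mu m ^ 2 * (1 / 256) := by gcongr
          have h42 : 0 < mu m ^ 2 := by positivity
          rw [ht']
          nlinarith
        have h5 : ‖AA (m + 2) (UU 𝕜 n)‖ ^ 2 ≤ 1 := by linarith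
        by_contra hcon
        push Not at hcon
        nlinarith
      · rw [h, AA_UU_self]
      · have h2 := later h
        have h3 : ((1 - tau m) + aa m * bb n) ^ 2 ≤ (1 + aa m * bb n) ^ 2 := by
          have := tau_le m
          apply pow_le_pow_left₀ (by linarith)
          linarith
        have h4 : (1 + aa m * bb n) ^ 2 + 2 * mu m ^ 2 ≤ (1 + aa m * bb n + mu m ^ 2) ^ 2 := by
          nlinarith [mul_pos hab (mul_pos hm hm), mul_pos (mul_pos hm hm) (mul_pos hm hm)]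
        have h5 : (1 + aa m * bb n + mu m ^ 2) ^ 2 ≤ (1 + sig n) ^ 2 := by
          apply pow_le_pow_left₀ (by positivity)
          linarith
        exact le_of_sq_le_sq (by linarith) (by linarith)
  · rw [← AA_UU_self (𝕜 := 𝕜) n]
    exact AA_le_el _ _

/-- points near a flat point in a slice -/
theorem slice_near {v w : VV 𝕜} (hv : Flat v) {n : ℕ} {ε : ℝ} (hε : 0 < ε) (hε1 : ε ≤ 1)
    (hmu : mu n ≤ ε ^ 3 / 100000) (hb : bb n ≤ ε / 60)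
    (hp : ‖((pq 𝕜 n).1 : 𝕜) - v 0 * (starRingEnd 𝕜) (v 2)‖ ≤ ε / 60)
    (hw : ‖el w‖ ≤ 1)
    (hre : 1 - 2 * sig n / ε ≤ RCLike.re (LL n w * (starRingEnd 𝕜) (v 2))) :
    ‖el w - el v‖ < ε := by
  have hv2 := flat_two hv
  have hv1 := flat_one hv
  have hz : v 2 * (starRingEnd 𝕜) (v 2) = 1 := by rw [RCLike.mul_conj, hv2]; simp
  have hmu0 := mu_pos n
  have hbb0 := bb_pos n
  -- rotate
  set u : VV 𝕜 := (starRingEnd 𝕜) (v 2) • w with hu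
  have hun : ‖el u‖ ≤ 1 := by
    rw [hu, el_smul, norm_smul, RCLike.norm_conj, hv2, one_mul]; exact hw
  have hLu : LL n u = LL n w * (starRingEnd 𝕜) (v 2) := by
    simp only [LL, hu, Pi.smul_apply, smul_eq_mul]; ring
  set δ : ℝ := 2 * sig n / ε with hδ
  have hδ0 : 0 < δ := by have := sig_pos n; positivity
  have hδ1 : δ ≤ 2 * mu n ^ 3 / ε := le_rfl
  have hmue : mu n / ε ≤ ε ^ 2 / 100000 := by
    rw [div_le_iff₀ hε]
    calc mu n ≤ ε ^ 3 / 100000 := hmu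
      _ = ε ^ 2 / 100000 * ε := by ring
  have hmu1 : mu n ^ 2 ≤ 1 := by have := mu_le n; nlinarith
  have hδmu : δ = 2 * (mu n / ε) * mu n ^ 2 := by rw [hδ, sig]; ring
  have hε2 : ε ^ 2 ≤ 1 := by nlinarith
  have hmue0 : 0 < mu n / ε := by positivity
  have hδ2 : δ ≤ 2 * ε ^ 2 / 100000 := by
    rw [hδmu]
    have : 2 * (mu n / ε) * mu n ^ 2 ≤ 2 * (mu n / ε) * 1 := by gcongr
    linarith
  have hδlt : δ ≤ 1 := by linarith
  have hL1 : 1 - δ ≤ ‖LL n u‖ := by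
    rw [hLu]; exact hre.trans (RCLike.re_le_norm _)
  have hA : ‖AA (n + 2) u‖ ^ 2 ≤ 1 := by
    have h1 := (AA_le_el u (n + 2)).trans hun
    nlinarith [norm_nonneg (AA (n + 2) u)]
  have hsq := norm_AA2 n u
  have hL2 : (1 - δ) ^ 2 ≤ ‖LL n u‖ ^ 2 := pow_le_pow_left₀ (by linarith) hL1 2
  have hmsq : 0 < mu n ^ 2 := by positivity
  have p0 : mu n ^ 2 * ‖u 0 - cc 𝕜 n * u 2‖ ^ 2 ≤ 2 * δ := by
    have : 0 ≤ mu n ^ 2 * ‖u 1 - ee 𝕜 n * u 2‖ ^ 2 := by positivity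
    nlinarith
  have p1 : mu n ^ 2 * ‖u 1 - ee 𝕜 n * u 2‖ ^ 2 ≤ 2 * δ := by
    have : 0 ≤ mu n ^ 2 * ‖u 0 - cc 𝕜 n * u 2‖ ^ 2 := by positivity
    nlinarith
  have q0 : ‖u 0 - cc 𝕜 n * u 2‖ ≤ ε / 30 := by
    have h1 : ‖u 0 - cc 𝕜 n * u 2‖ ^ 2 ≤ 4 * (mu n / ε) := by
      rw [hδmu] at p0
      have : mu n ^ 2 * ‖u 0 - cc 𝕜 n * u 2‖ ^ 2 ≤ mu n ^ 2 * (4 * (mu n / ε)) := by linarith
      exact le_of_mul_le_mul_left this hmsq
    refine le_of_sq_le_sq ?_ (by linarith)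
    nlinarith
  have q1 : ‖u 1 - ee 𝕜 n * u 2‖ ≤ ε / 30 := by
    have h1 : ‖u 1 - ee 𝕜 n * u 2‖ ^ 2 ≤ 4 * (mu n / ε) := by
      rw [hδmu] at p1
      have : mu n ^ 2 * ‖u 1 - ee 𝕜 n * u 2‖ ^ 2 ≤ mu n ^ 2 * (4 * (mu n / ε)) := by linarith
      exact le_of_mul_le_mul_left this hmsq
    refine le_of_sq_le_sq ?_ (by linarith)
    nlinarith
  have hu2 : ‖u 2‖ ≤ 1 := by rw [← norm_AA0]; exact (AA_le_el u 0).trans hun
  have hu1 : ‖u 1‖ ≤ 1 := by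
    have h1 := norm_AA1 u
    have h2 := (AA_le_el u 1).trans hun
    have h3 : ‖AA 1 u‖ ^ 2 ≤ 1 := by nlinarith [norm_nonneg (AA 1 u)]
    by_contra hcon
    push Not at hcon
    nlinarith [sq_nonneg ‖u 0‖, sq_nonneg ‖u 2‖]
  have haa := aa_le n
  have haa0 := aa_pos n
  have hre2 : 1 - δ - aa n ≤ RCLike.re (u 2) := by
    have h1 : RCLike.re (LL n u) = (1 - tau n) * RCLike.re (u 2) +
        aa n * RCLike.re (th 𝕜 n * u 1) := by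
      rw [LL, map_add, RCLike.re_ofReal_mul, mul_assoc, RCLike.re_ofReal_mul]
    have h2 : RCLike.re (th 𝕜 n * u 1) ≤ 1 := by
      refine (RCLike.re_le_norm _).trans ?_
      rw [norm_mul, norm_th, one_mul]; exact hu1
    have h3 : 1 - δ ≤ RCLike.re (LL n u) := by rw [hLu]; exact hre
    have h4 : aa n * RCLike.re (th 𝕜 n * u 1) ≤ aa n := by nlinarith
    have h5 : 1 - δ - aa n ≤ (1 - tau n) * RCLike.re (u 2) := by linarith
    have h6 := tau_pos n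
    have h7 := tau_le n
    have h8 : 0 ≤ 1 - δ - aa n := by
      have := mu_le n
      nlinarith
    have h9 : 0 ≤ RCLike.re (u 2) := by
      by_contra hcon
      push Not at hcon
      nlinarith
    nlinarith
  have haε : aa n ≤ 9 * ε ^ 2 / 100000 := by
    have : mu n ≤ ε ^ 2 / 100000 := by
      have h1 : ε ^ 3 ≤ ε ^ 2 := by
        calc ε ^ 3 = ε ^ 2 * ε := by ring
          _ ≤ ε ^ 2 * 1 := by gcongr
          _ = ε ^ 2 := mul_one _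
      linarith
    linarith
  have q2 : ‖u 2 - 1‖ ≤ ε / 30 := by
    have h1 : ‖u 2 - 1‖ ^ 2 = ‖u 2‖ ^ 2 - 2 * RCLike.re (u 2) + 1 := by
      rw [RCLike.norm_sq_eq_def, RCLike.norm_sq_eq_def]
      simp only [map_sub, RCLike.one_re, RCLike.one_im]
      ring
    have h2 : ‖u 2‖ ^ 2 ≤ 1 := by nlinarith [norm_nonneg (u 2)]
    have h3 : ‖u 2 - 1‖ ^ 2 ≤ 2 * (δ + aa n) := by linarith
    refine le_of_sq_le_sq ?_ (by linarith)
    nlinarith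
  -- the difference
  set s : 𝕜 := v 0 * (starRingEnd 𝕜) (v 2) with hs
  have hcs : ‖cc 𝕜 n - s‖ ≤ ε / 30 := by
    have h1 : cc 𝕜 n - s = (((pq 𝕜 n).1 : 𝕜) - s) - ((bb n : ℝ) : 𝕜) * (pq 𝕜 n).1 := by
      rw [cc]; push_cast; ring
    rw [h1]
    refine le_trans (norm_sub_le _ _) ?_
    rw [norm_mul, RCLike.norm_ofReal, abs_of_pos hbb0]
    have h2 := norm_pq 𝕜 n
    nlinarith
  have hdiff : ‖el w - el v‖ = ‖el (u - (starRingEnd 𝕜) (v 2) • v)‖ := by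
    rw [hu, ← smul_sub, el_smul, norm_smul, RCLike.norm_conj, hv2, one_mul, el_sub]
  rw [hdiff]
  refine lt_of_le_of_lt (el_le_M3 _) ?_
  have e0 : (u - (starRingEnd 𝕜) (v 2) • v) 0 = (u 0 - cc 𝕜 n * u 2) + cc 𝕜 n * (u 2 - 1) +
      (cc 𝕜 n - s) := by
    simp only [Pi.sub_apply, Pi.smul_apply, smul_eq_mul, hs]; ring
  have e1 : (u - (starRingEnd 𝕜) (v 2) • v) 1 = (u 1 - ee 𝕜 n * u 2) + ee 𝕜 n * u 2 := by
    simp only [Pi.sub_apply, Pi.smul_apply, smul_eq_mul, hv1]; ring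
  have e2 : (u - (starRingEnd 𝕜) (v 2) • v) 2 = u 2 - 1 := by
    simp only [Pi.sub_apply, Pi.smul_apply, smul_eq_mul]
    linear_combination -hz
  have n0 : ‖(u - (starRingEnd 𝕜) (v 2) • v) 0‖ ≤ ε / 10 := by
    rw [e0]
    refine le_trans (norm_add₃_le) ?_
    rw [norm_mul]
    have := norm_cc_le (𝕜 := 𝕜) n
    nlinarith [norm_nonneg (u 2 - 1)]
  have n1 : ‖(u - (starRingEnd 𝕜) (v 2) • v) 1‖ ≤ ε / 15 := by
    rw [e1]
    refine le_trans (norm_add_le _ _) ?_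
    rw [norm_mul, norm_ee]
    nlinarith [norm_nonneg (u 2)]
  have n2 : ‖(u - (starRingEnd 𝕜) (v 2) • v) 2‖ ≤ ε / 30 := by
    rw [e2]; exact q2
  unfold M3
  linarith

theorem crit (x : XX 𝕜) (φ : XX 𝕜 →L[𝕜] 𝕜) (hx : ‖x‖ = 1) (hφ : ‖φ‖ ≤ 1) (hφx : φ x = 1) :
    Exposed 𝕜 x ∨
      ∀ ε : ℝ, 0 < ε → ε ≤ 1 → ∃ (x₀ : XX 𝕜) (g : XX 𝕜 →L[𝕜] 𝕜) (r : ℝ), ‖x₀‖ = 1 ∧ ‖g‖ ≤ 1 ∧
        g x₀ = 1 ∧ 0 < r ∧ r ≤ ε ∧ 1 - r < RCLike.re (φ x₀) ∧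
        ∀ v, ‖v‖ ≤ 1 → 1 - r / ε ≤ RCLike.re (g v) → ‖v - x‖ < ε ∧ (‖v‖ = 1 → Exposed 𝕜 v) := by
  obtain ⟨v, rfl⟩ := el_surj x
  have dich : ∀ w : VV 𝕜, ‖el w‖ = 1 → Exposed 𝕜 (el w) ∨ Flat w := by
    intro w hw
    by_cases h : ∃ k, 1 ≤ k ∧ ‖AA k w‖ = 1
    · obtain ⟨k, hk, hk'⟩ := h
      exact Or.inl (exposed_of_norm hk hw hk')
    · push Not at h
      refine Or.inr ⟨hw, fun k hk => lt_of_le_of_ne ?_ (h k hk)⟩
      rw [← hw]; exact AA_le_el w k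
  rcases dich v hx with h | hv
  · exact Or.inl h
  refine Or.inr fun ε hε hε1 => ?_
  have hv2 := flat_two hv
  have hz : v 2 * (starRingEnd 𝕜) (v 2) = 1 := by rw [RCLike.mul_conj, hv2]; simp
  have hs : ‖v 0 * (starRingEnd 𝕜) (v 2)‖ ≤ 3 / 5 := by
    rw [norm_mul, RCLike.norm_conj, hv2, mul_one]; exact flat_zero hv
  obtain ⟨N1, hN1⟩ := eventually_atTop.1 (tendsto_mu.eventually (gt_mem_nhds
    (show (0 : ℝ) < ε ^ 3 / 100000 by positivity)))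
  obtain ⟨N2, hN2⟩ := eventually_atTop.1 (tendsto_bb.eventually (gt_mem_nhds
    (show (0 : ℝ) < ε / 60 by positivity)))
  obtain ⟨n, hn, hn1, -⟩ := pq_dense 𝕜 (⟨⟨v 0 * (starRingEnd 𝕜) (v 2),
    mem_closedBall_zero_iff.2 hs⟩, ⟨1, by simp⟩⟩ : QQ 𝕜) (show (0 : ℝ) < ε / 60 by positivity)
    (max N1 N2)
  have hmu := (hN1 n ((le_max_left _ _).trans hn)).le
  have hb := (hN2 n ((le_max_right _ _).trans hn)).le
  have hp : ‖((pq 𝕜 n).1 : 𝕜) - v 0 * (starRingEnd 𝕜) (v 2)‖ ≤ ε / 60 := hn1.le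
  have hsig := sig_pos n
  have hmu0 := mu_pos n
  have hmu1 := mu_le n
  have hs1 : (0 : ℝ) < 1 + sig n := by linarith
  have hs1' : ((1 + sig n : ℝ) : 𝕜) ≠ 0 := by exact_mod_cast hs1.ne'
  set w₀ : EE 𝕜 := EuclideanSpace.single 0 (v 2) with hw₀
  have hg : ∀ w : VV 𝕜, gf (n + 2) w₀ (el w) = LL n w * (starRingEnd 𝕜) (v 2) := by
    intro w
    rw [gf_el, hw₀, EuclideanSpace.inner_single_left, AA]
    simp [mul_comm]
  have hgn : ‖gf (n + 2) w₀‖ ≤ 1 := by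
    refine (norm_gf_le _ _).trans ?_
    rw [hw₀, PiLp.norm_single, hv2]
  refine ⟨(v 2 * ((1 + sig n : ℝ) : 𝕜)⁻¹) • el (UU 𝕜 n), gf (n + 2) w₀, 2 * sig n, ?_, hgn, ?_,
    by linarith, ?_, ?_, ?_⟩
  · rw [norm_smul, norm_mul, hv2, norm_inv, RCLike.norm_ofReal, abs_of_pos hs1, norm_UU, one_mul]
    exact inv_mul_cancel₀ hs1.ne'
  · rw [map_smul, hg, LL_UU, smul_eq_mul]
    have : v 2 * ((1 + sig n : ℝ) : 𝕜)⁻¹ * (((1 + sig n : ℝ) : 𝕜) * (starRingEnd 𝕜) (v 2)) =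
      (((1 + sig n : ℝ) : 𝕜)⁻¹ * ((1 + sig n : ℝ) : 𝕜)) * (v 2 * (starRingEnd 𝕜) (v 2)) := by ring
    rw [this, hz, inv_mul_cancel₀ hs1', one_mul]
  · have h1 : sig n ≤ mu n := by
      have := sig_le n
      nlinarith
    have h2 : ε ^ 3 ≤ ε := by
      have : ε ^ 2 ≤ 1 := by nlinarith
      calc ε ^ 3 = ε ^ 2 * ε := by ring
        _ ≤ 1 * ε := by gcongr
        _ = ε := one_mul _
    linarith
  · rw [map_smul, flat_fun' hv hφ hφx, smul_eq_mul]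
    have e2 : (UU 𝕜 n) 2 = 1 := by simp [UU]
    have h1 : v 2 * ((1 + sig n : ℝ) : 𝕜)⁻¹ * ((UU 𝕜 n) 2 * (starRingEnd 𝕜) (v 2)) =
        (((1 + sig n)⁻¹ : ℝ) : 𝕜) := by
      rw [e2, one_mul, RCLike.ofReal_inv]
      linear_combination ((1 + sig n : ℝ) : 𝕜)⁻¹ * hz
    rw [h1, RCLike.ofReal_re]
    have h2 : (1 + sig n) * (1 + sig n)⁻¹ = 1 := mul_inv_cancel₀ hs1.ne'
    have h3 : 0 < (1 + sig n)⁻¹ := by positivity
    nlinarith
  · intro y hy hyre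
    obtain ⟨w, rfl⟩ := el_surj y
    rw [hg] at hyre
    refine ⟨slice_near hv hε hε1 hmu hb hp hy hyre, fun hy1 => ?_⟩
    rcases dich w hy1 with h | hw
    · exact h
    · exfalso
      have hw1 := flat_one hw
      have hw2 := flat_two hw
      have h1 : RCLike.re (LL n w * (starRingEnd 𝕜) (v 2)) ≤ 1 - tau n := by
        refine (RCLike.re_le_norm _).trans ?_
        have := tau_le n
        rw [LL, hw1, mul_zero, add_zero, norm_mul, norm_mul, hw2, RCLike.norm_conj, hv2,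
          RCLike.norm_ofReal, abs_of_nonneg (by linarith)]
        linarith
      have h2 : tau n ≤ 2 * sig n / ε := by linarith
      rw [le_div_iff₀ hε, tau, sig] at h2
      have h3 : 0 < mu n ^ 2 := by positivity
      have h4 : 8 * ε ≤ 2 * mu n := by
        have : mu n ^ 2 * (8 * ε) ≤ mu n ^ 2 * (2 * mu n) := by nlinarith
        exact le_of_mul_le_mul_left this h3
      have h5 : ε ^ 3 ≤ ε := by
        have : ε ^ 2 ≤ 1 := by nlinarith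
        calc ε ^ 3 = ε ^ 2 * ε := by ring
          _ ≤ 1 * ε := by gcongr
          _ = ε := one_mul _
      linarith

theorem universal {Z : Type v} [NormedAddCommGroup Z] [NormedSpace 𝕜 Z] : BPBpASE 𝕜 (XX 𝕜) Z :=
  bpbp_of_crit crit

/-- the points of a segment of the sphere -/
theorem norm_seg {s : ℝ} (h0 : 0 ≤ s) (h1 : s ≤ 1 / 2) :
    ‖el (![((s : ℝ) : 𝕜), 0, 1] : VV 𝕜)‖ = 1 := by
  set v : VV 𝕜 := ![((s : ℝ) : 𝕜), 0, 1] with hv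
  have e0 : v 0 = ((s : ℝ) : 𝕜) := by simp [hv]
  have e1 : v 1 = 0 := by simp [hv]
  have e2 : v 2 = 1 := by simp [hv]
  have hsn : ‖v 0‖ = s := by rw [e0, RCLike.norm_ofReal, abs_of_nonneg h0]
  apply le_antisymm
  · refine el_le zero_le_one fun k => ?_
    match k with
    | 0 => rw [norm_AA0, e2, norm_one]
    | 1 =>
      have h2 := norm_AA1 v
      rw [hsn, e1, e2, norm_zero, norm_one] at h2
      by_contra hcon
      push Not at hcon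
      nlinarith
    | (m + 2) =>
      have h2 := norm_AA2 m v
      have h3 : ‖LL m v‖ = 1 - tau m := by
        have := tau_le m
        rw [LL, e1, e2, mul_zero, add_zero, mul_one, RCLike.norm_ofReal,
          abs_of_nonneg (by linarith)]
      have h4 : ‖v 0 - cc 𝕜 m * v 2‖ ≤ 11 / 10 := by
        refine le_trans (norm_sub_le _ _) ?_
        rw [norm_mul, e2, norm_one, hsn]
        have := norm_cc_le (𝕜 := 𝕜) m
        linarith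
      have h5 : ‖v 1 - ee 𝕜 m * v 2‖ ≤ 1 / 4 := by
        rw [e1, e2, zero_sub, norm_neg, mul_one]
        exact norm_ee_le m
      have h6 : ‖v 0 - cc 𝕜 m * v 2‖ ^ 2 ≤ (11 / 10) ^ 2 := pow_le_pow_left₀ (norm_nonneg _) h4 2
      have h7 : ‖v 1 - ee 𝕜 m * v 2‖ ^ 2 ≤ (1 / 4) ^ 2 := pow_le_pow_left₀ (norm_nonneg _) h5 2
      have h8 := mu_pos m
      have h9 := mu_le m
      have h10 : 0 < mu m ^ 2 := by positivity
      rw [h3, tau] at h2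
      have h11 : mu m ^ 2 ≤ 1 / 256 := by nlinarith
      have h12 : ‖AA (m + 2) v‖ ^ 2 ≤ 1 := by nlinarith
      by_contra hcon
      push Not at hcon
      nlinarith
  · rw [← norm_one (α := 𝕜), ← e2, ← norm_AA0]
    exact AA_le_el _ _

theorem dist_seg : 1 / 2 ≤ ‖el (![((1 / 2 : ℝ) : 𝕜), 0, 1] : VV 𝕜) -
    el (![((0 : ℝ) : 𝕜), 0, 1] : VV 𝕜)‖ := by
  rw [← el_sub]
  refine le_trans ?_ (AA_le_el _ 1)
  set d : VV 𝕜 := ![((1 / 2 : ℝ) : 𝕜), 0, 1] - ![((0 : ℝ) : 𝕜), 0, 1] with hd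
  have h1 := norm_AA1 d
  have e0 : d 0 = ((1 / 2 : ℝ) : 𝕜) := by simp [hd]
  rw [e0, RCLike.norm_ofReal, abs_of_pos (by norm_num)] at h1
  by_contra hcon
  push Not at hcon
  nlinarith [sq_nonneg ‖d 1‖, sq_nonneg ‖d 2‖, norm_nonneg (AA 1 d)]

theorem add_seg : el (![((1 / 2 : ℝ) : 𝕜), 0, 1] : VV 𝕜) + el (![((0 : ℝ) : 𝕜), 0, 1] : VV 𝕜) =
    (2 : 𝕜) • el (![((1 / 4 : ℝ) : 𝕜), 0, 1] : VV 𝕜) := by
  rw [← el_add, ← el_smul]
  congr 1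
  ext i
  fin_cases i
  · show ((1 / 2 : ℝ) : 𝕜) + ((0 : ℝ) : 𝕜) = (2 : 𝕜) * ((1 / 4 : ℝ) : 𝕜)
    have h2 : (2 : 𝕜) = ((2 : ℝ) : 𝕜) := (RCLike.ofReal_ofNat 2).symm
    rw [h2, ← RCLike.ofReal_mul, ← RCLike.ofReal_add]
    congr 1
    norm_num
  · simp
  · show (1 : 𝕜) + 1 = 2 * 1
    norm_num

theorem JJ_inj : Function.Injective (JJ 𝕜) := by
  intro v w h
  have h1 : AA 1 v = AA 1 w := congrArg (fun f : ℕ →ᵇ EE 𝕜 => f 1) h
  have h2 : AA 1 (v - w) = 0 := by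
    rw [sub_eq_add_neg, AA_add, show -w = (-1 : 𝕜) • w by simp, AA_smul, neg_one_smul, h1,
      add_neg_cancel]
  exact sub_eq_zero.1 (eq_zero_of_AA le_rfl h2)

theorem finrank_XX : Module.finrank 𝕜 (XX 𝕜) = 3 := by
  have h := LinearMap.finrank_range_of_inj (JJ_inj (𝕜 := 𝕜))
  have h2 : Module.finrank 𝕜 (XX 𝕜) = Module.finrank 𝕜 (LinearMap.range (JJ 𝕜)) := rfl
  rw [h2, h]
  simp

end

end Pool.Agent.V1176.UC
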