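import Pool.Agent.V1176.UC.Space

/-! # The flat points and their neighbours -/

set_option autoImplicit false

namespace Pool.Agent.V1176.UC

open Filter Topology Metric BoundedContinuousFunction

variable {𝕜 : Type} [RCLike 𝕜]

theorem exists_lt_bound {v : VV 𝕜} (N : ℕ) (h : ∀ k < N, ‖AA k v‖ < 1) :
    ∃ C : ℝ, 0 ≤ C ∧ C < 1 ∧ ∀ k < N, ‖AA k v‖ ≤ C := by
  induction N with
  | zero => exact ⟨0, le_rfl, one_pos, fun k hk => absurd hk (Nat.not_lt_zero k)⟩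
  | succ N ih =>
    obtain ⟨C, hC0, hC1, hC⟩ := ih fun k hk => h k (by omega)
    refine ⟨max C ‖AA N v‖, le_max_of_le_left hC0, max_lt hC1 (h N (by omega)), fun k hk => ?_⟩
    rcases Nat.lt_succ_iff_lt_or_eq.1 hk with h1 | h1
    · exact (hC k h1).trans (le_max_left _ _)
    · rw [h1]; exact le_max_right _ _

theorem tail_small (v : VV 𝕜) {ε : ℝ} (hε : 0 < ε) : ∃ N, ∀ n ≥ N, 10 * mu n * M3 v ≤ ε := by
  have h1 : Tendsto (fun n => 10 * mu n * M3 v) atTop (𝓝 (10 * 0 * M3 v)) :=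
    (tendsto_mu.const_mul 10).mul_const _
  rw [mul_zero, zero_mul] at h1
  obtain ⟨N, hN⟩ := eventually_atTop.1 (h1.eventually (gt_mem_nhds hε))
  exact ⟨N, fun n hn => (hN n hn).le⟩

/-- the flat points: those where all the Hilbertian norms are less than one -/
def Flat (v : VV 𝕜) : Prop := ‖el v‖ = 1 ∧ ∀ k, 1 ≤ k → ‖AA k v‖ < 1

theorem flat_two {v : VV 𝕜} (h : Flat v) : ‖v 2‖ = 1 := by
  obtain ⟨h1, h⟩ := h
  have h2 : ‖v 2‖ ≤ 1 := by rw [← h1, ← norm_AA0]; exact AA_le_el v 0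
  by_contra hne
  have h3 : ‖v 2‖ < 1 := lt_of_le_of_ne h2 hne
  obtain ⟨N, hN⟩ := tail_small v (show (0 : ℝ) < (1 - ‖v 2‖) / 2 by linarith)
  obtain ⟨C, hC0, hC1, hC⟩ := exists_lt_bound (v := v) (N + 2) (fun k _ => by
    rcases Nat.eq_zero_or_pos k with hk | hk
    · rw [hk, norm_AA0]; exact h3
    · exact h k hk)
  have h4 : ‖el v‖ ≤ max C ((1 + ‖v 2‖) / 2) := by
    refine el_le (le_max_of_le_left hC0) fun k => ?_
    rcases lt_or_ge k (N + 2) with hk | hk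
    · exact (hC k hk).trans (le_max_left _ _)
    · refine le_trans ?_ (le_max_right _ _)
      obtain ⟨n, rfl⟩ : ∃ n, k = n + 2 := ⟨k - 2, by omega⟩
      have h5 := norm_AA_add2 n v
      have h6 := hN n (by omega)
      linarith
  have h5 : max C ((1 + ‖v 2‖) / 2) < 1 := max_lt hC1 (by linarith)
  linarith

theorem flat_zero {v : VV 𝕜} (h : Flat v) : ‖v 0‖ ≤ 3 / 5 := by
  have h1 := h.2 1 le_rfl
  have h2 := norm_AA1 v
  have h3 := flat_two h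
  rw [h3] at h2
  have h4 : ‖AA 1 v‖ ^ 2 < 1 := by nlinarith [norm_nonneg (AA 1 v)]
  by_contra hcon
  push Not at hcon
  nlinarith [sq_nonneg ‖v 1‖]

theorem flat_one {v : VV 𝕜} (h : Flat v) : v 1 = 0 := by
  have h2 := flat_two h
  by_contra hne
  have hy : 0 < ‖v 1‖ := norm_pos_iff.2 hne
  set w : 𝕜 := v 1 * (starRingEnd 𝕜) (v 2) with hw
  have hwn : ‖w‖ = ‖v 1‖ := by rw [hw, norm_mul, RCLike.norm_conj, h2, mul_one]
  obtain ⟨c, hc, hcw⟩ := exists_rot w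
  obtain ⟨N, hN⟩ := eventually_atTop.1 (tendsto_bb.eventually (gt_mem_nhds (show (0 : ℝ) < ‖v 1‖ / 2
    by linarith)))
  obtain ⟨n, hn, -, hn2⟩ := pq_dense 𝕜 (⟨⟨0, mem_closedBall_self (by norm_num)⟩,
    ⟨c, mem_sphere_zero_iff_norm.2 hc⟩⟩ : QQ 𝕜) (show (0 : ℝ) < 1 / 2 by norm_num) N
  have hb := hN n hn
  have h3 : ‖th 𝕜 n - c‖ < 1 / 2 := hn2
  have h4 : ‖v 1‖ / 2 ≤ RCLike.re (th 𝕜 n * w) := by
    have h5 : th 𝕜 n * w = c * w + (th 𝕜 n - c) * w := by ring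
    rw [h5, hcw, map_add, RCLike.ofReal_re, hwn]
    have h6 : -‖(th 𝕜 n - c) * w‖ ≤ RCLike.re ((th 𝕜 n - c) * w) :=
      (abs_le.1 (RCLike.abs_re_le_norm _)).1
    have h7 : ‖(th 𝕜 n - c) * w‖ ≤ 1 / 2 * ‖v 1‖ := by
      rw [norm_mul, hwn]; gcongr
    linarith
  have hz : v 2 * (starRingEnd 𝕜) (v 2) = 1 := by rw [RCLike.mul_conj, h2]; simp
  have h5 : LL n v * (starRingEnd 𝕜) (v 2) =
      ((1 - tau n : ℝ) : 𝕜) + ((aa n : ℝ) : 𝕜) * (th 𝕜 n * w) := by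
    rw [LL, hw]
    linear_combination ((1 - tau n : ℝ) : 𝕜) * hz
  have h6 : 1 - tau n + aa n * (‖v 1‖ / 2) ≤ ‖LL n v‖ := by
    have h7 : ‖LL n v‖ = ‖LL n v * (starRingEnd 𝕜) (v 2)‖ := by
      rw [norm_mul, RCLike.norm_conj, h2, mul_one]
    rw [h7, h5]
    refine le_trans ?_ (RCLike.re_le_norm _)
    rw [map_add, RCLike.ofReal_re, RCLike.re_ofReal_mul]
    have := aa_pos n
    nlinarith
  have h8 : tau n ≤ aa n * (‖v 1‖ / 2) := by
    have h9 := aa_mul n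
    have h10 := sig_pos n
    have h11 : aa n * bb n ≤ aa n * (‖v 1‖ / 2) := by
      have := aa_pos n
      gcongr
    linarith
  have h9 : ‖LL n v‖ ≤ ‖AA (n + 2) v‖ := by
    have h10 := norm_AA2 n v
    have h11 : 0 ≤ mu n ^ 2 * ‖v 0 - cc 𝕜 n * v 2‖ ^ 2 := by positivity
    have h12 : 0 ≤ mu n ^ 2 * ‖v 1 - ee 𝕜 n * v 2‖ ^ 2 := by positivity
    refine le_of_sq_le_sq ?_ (norm_nonneg _)
    linarith
  have h10 := h.2 (n + 2) (by omega)
  linarith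

/-- the norming functional at a flat point -/
theorem flat_fun {v : VV 𝕜} (hv : Flat v) {φ : XX 𝕜 →L[𝕜] 𝕜} (hφ : ‖φ‖ ≤ 1)
    (hφv : φ (el v) = 1) {d : VV 𝕜} (hd : d 2 = 0) : φ (el d) = 0 := by
  by_contra hne
  have hv2 := flat_two hv
  obtain ⟨c, hc, hcw⟩ := exists_rot (φ (el d))
  set ρ : ℝ := ‖φ (el d)‖ with hρ
  have hρ0 : 0 < ρ := norm_pos_iff.2 hne
  set e : VV 𝕜 := c • d with he
  have he2 : e 2 = 0 := by simp [he, hd]
  have hφe : φ (el e) = ((ρ : ℝ) : 𝕜) := by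
    rw [he, el_smul, map_smul, smul_eq_mul, hcw]
  obtain ⟨N, hN⟩ := tail_small e (show (0 : ℝ) < ρ / 2 by linarith)
  have hfin : ∃ C : ℝ, 0 ≤ C ∧ C < 1 ∧ ∀ k < N + 2, 1 ≤ k → ‖AA k v‖ ≤ C := by
    have key : ∀ N : ℕ, ∃ C : ℝ, 0 ≤ C ∧ C < 1 ∧ ∀ k < N, 1 ≤ k → ‖AA k v‖ ≤ C := by
      intro N
      induction N with
      | zero => exact ⟨0, le_rfl, one_pos, fun k hk => absurd hk (Nat.not_lt_zero k)⟩
      | succ N ih =>
        obtain ⟨C, hC0, hC1, hC⟩ := ih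
        rcases Nat.eq_zero_or_pos N with hN | hN
        · exact ⟨0, le_rfl, one_pos, fun k hk hk1 => by omega⟩
        · refine ⟨max C ‖AA N v‖, le_max_of_le_left hC0, max_lt hC1 (hv.2 N hN),
            fun k hk hk1 => ?_⟩
          rcases Nat.lt_succ_iff_lt_or_eq.1 hk with h1 | h1
          · exact (hC k h1 hk1).trans (le_max_left _ _)
          · rw [h1]; exact le_max_right _ _
    exact key _
  obtain ⟨C, hC0, hC1, hC⟩ := hfin
  set B : ℝ := 2 * M3 e with hB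
  have hB0 : 0 ≤ B := by have := M3_nonneg e; positivity
  set t : ℝ := (1 - C) / (B + 1) with ht
  have ht0 : 0 < t := by
    rw [ht]; apply div_pos <;> linarith
  have htB : t * B ≤ 1 - C := by
    rw [ht, div_mul_eq_mul_div, div_le_iff₀ (by linarith)]
    nlinarith
  have hup : ‖el (v + ((t : ℝ) : 𝕜) • e)‖ ≤ 1 + t * (ρ / 2) := by
    refine el_le (by positivity) fun k => ?_
    rw [AA_add, AA_smul]
    have h1 : ‖AA k v + ((t : ℝ) : 𝕜) • AA k e‖ ≤ ‖AA k v‖ + t * ‖AA k e‖ := by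
      refine le_trans (norm_add_le _ _) ?_
      rw [norm_smul, RCLike.norm_ofReal, abs_of_pos ht0]
    have h2 : ‖AA k e‖ ≤ B := norm_AA_le k e
    have h3 : t * ‖AA k e‖ ≤ t * B := by gcongr
    have h0 : 0 ≤ t * (ρ / 2) := by positivity
    rcases Nat.eq_zero_or_pos k with hk | hk
    · subst hk
      rw [norm_AA0, norm_AA0, hv2, he2, norm_zero, mul_zero] at h1
      linarith
    · rcases lt_or_ge k (N + 2) with hk2 | hk2
      · have := hC k hk2 hk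
        linarith
      · obtain ⟨n, rfl⟩ : ∃ n, k = n + 2 := ⟨k - 2, by omega⟩
        have h5 := norm_AA_add2 n e
        rw [he2, norm_zero, zero_add] at h5
        have h6 := hN n (by omega)
        have h7 := (hv.2 (n + 2) hk).le
        have h8 : t * ‖AA (n + 2) e‖ ≤ t * (ρ / 2) := by gcongr; linarith
        linarith
  have hlow : 1 + t * ρ ≤ ‖el (v + ((t : ℝ) : 𝕜) • e)‖ := by
    have h1 : φ (el (v + ((t : ℝ) : 𝕜) • e)) = ((1 + t * ρ : ℝ) : 𝕜) := by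
      rw [el_add, el_smul, map_add, map_smul, hφv, hφe, smul_eq_mul]
      push_cast; ring
    have h2 := φ.le_opNorm (el (v + ((t : ℝ) : 𝕜) • e))
    rw [h1, RCLike.norm_ofReal, abs_of_pos (by positivity)] at h2
    nlinarith [norm_nonneg (el (v + ((t : ℝ) : 𝕜) • e))]
  nlinarith [mul_pos ht0 hρ0]

theorem flat_fun' {v : VV 𝕜} (hv : Flat v) {φ : XX 𝕜 →L[𝕜] 𝕜} (hφ : ‖φ‖ ≤ 1)
    (hφv : φ (el v) = 1) (w : VV 𝕜) : φ (el w) = w 2 * (starRingEnd 𝕜) (v 2) := by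
  have hz : v 2 * (starRingEnd 𝕜) (v 2) = 1 := by rw [RCLike.mul_conj, flat_two hv]; simp
  have h1 := flat_fun hv hφ hφv (d := w - (w 2 * (starRingEnd 𝕜) (v 2)) • v) (by
    simp only [Pi.sub_apply, Pi.smul_apply, smul_eq_mul]
    linear_combination (-(w 2)) * hz)
  rw [el_sub, el_smul, map_sub, map_smul, hφv, smul_eq_mul, mul_one] at h1
  exact sub_eq_zero.1 h1

end Pool.Agent.V1176.UC
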