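import Pool.Agent.V1176.UC.Abs

/-! # The parameters -/

set_option autoImplicit false

namespace Pool.Agent.V1176.UC

open Filter Topology Metric

noncomputable def bb (n : ℕ) : ℝ := (1 / 4) ^ (n + 1)
noncomputable def mu (n : ℕ) : ℝ := (1 / 2) ^ (4 ^ (n + 1))
noncomputable def tau (n : ℕ) : ℝ := 8 * mu n ^ 2
noncomputable def sig (n : ℕ) : ℝ := mu n ^ 3
noncomputable def aa (n : ℕ) : ℝ := (tau n + sig n) / bb n

theorem bb_pos (n : ℕ) : 0 < bb n := by unfold bb; positivity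
theorem mu_pos (n : ℕ) : 0 < mu n := by unfold mu; positivity
theorem bb_le (n : ℕ) : bb n ≤ 1 / 4 := by
  unfold bb
  calc ((1 : ℝ) / 4) ^ (n + 1) ≤ (1 / 4) ^ 1 :=
        pow_le_pow_of_le_one (by norm_num) (by norm_num) (by omega)
    _ = 1 / 4 := pow_one _
theorem bb_lt {n m : ℕ} (h : n < m) : bb m ≤ bb n / 4 := by
  unfold bb
  calc ((1 : ℝ) / 4) ^ (m + 1) ≤ (1 / 4) ^ (n + 1 + 1) :=
        pow_le_pow_of_le_one (by norm_num) (by norm_num) (by omega)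
    _ = (1 / 4) ^ (n + 1) / 4 := by rw [pow_succ]; ring
theorem mu_le (n : ℕ) : mu n ≤ 1 / 16 := by
  unfold mu
  have h : 4 ≤ 4 ^ (n + 1) := by
    calc 4 = 4 ^ 1 := (pow_one 4).symm
      _ ≤ 4 ^ (n + 1) := Nat.pow_le_pow_right (by norm_num) (by omega)
  calc ((1 : ℝ) / 2) ^ (4 ^ (n + 1)) ≤ (1 / 2) ^ 4 :=
        pow_le_pow_of_le_one (by norm_num) (by norm_num) h
    _ = 1 / 16 := by norm_num
theorem mu_le_bb (n : ℕ) : mu n ≤ bb n := by
  unfold mu bb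
  have h : (4 ^ (n + 1) : ℕ) < 2 ^ (4 ^ (n + 1)) := Nat.lt_two_pow_self
  have h' : ((4 : ℝ) ^ (n + 1)) ≤ 2 ^ (4 ^ (n + 1)) := by exact_mod_cast h.le
  rw [div_pow, div_pow, one_pow, one_pow]
  exact one_div_le_one_div_of_le (by positivity) h'
theorem mu_pow {n m : ℕ} (h : n < m) : mu m ≤ mu n ^ 4 := by
  unfold mu
  rw [← pow_mul, ← pow_succ]
  refine pow_le_pow_of_le_one (by norm_num) (by norm_num) ?_
  exact Nat.pow_le_pow_right (by norm_num) (by omega)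
theorem tendsto_bb : Tendsto bb atTop (𝓝 0) := by
  have h : Tendsto (fun n : ℕ => ((1 : ℝ) / 4) ^ n) atTop (𝓝 0) :=
    tendsto_pow_atTop_nhds_zero_of_lt_one (by norm_num) (by norm_num)
  exact h.comp (tendsto_add_atTop_nat 1)
theorem tendsto_mu : Tendsto mu atTop (𝓝 0) :=
  squeeze_zero (fun n => (mu_pos n).le) mu_le_bb tendsto_bb

theorem tau_pos (n : ℕ) : 0 < tau n := by unfold tau; have := mu_pos n; positivity
theorem sig_pos (n : ℕ) : 0 < sig n := by unfold sig; have := mu_pos n; positivity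
theorem sig_le (n : ℕ) : sig n ≤ mu n ^ 2 := by
  unfold sig
  have := mu_pos n; have := mu_le n
  nlinarith [sq_nonneg (mu n)]
theorem tau_le (n : ℕ) : tau n ≤ 1 / 32 := by
  unfold tau
  have := mu_pos n; have := mu_le n
  nlinarith
theorem aa_pos (n : ℕ) : 0 < aa n := by
  unfold aa; have := tau_pos n; have := sig_pos n; have := bb_pos n; positivity
theorem aa_mul (n : ℕ) : aa n * bb n = tau n + sig n := by
  unfold aa; exact div_mul_cancel₀ _ (bb_pos n).ne'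
theorem aa_le (n : ℕ) : aa n ≤ 9 * mu n := by
  unfold aa
  rw [div_le_iff₀ (bb_pos n)]
  have h1 := sig_le n
  have h2 : tau n = 8 * mu n ^ 2 := rfl
  have h3 := mu_le_bb n
  have h4 := mu_pos n
  nlinarith
theorem aa_le_one (n : ℕ) : aa n ≤ 1 := by
  have := aa_le n; have := mu_le n; linarith

/-- the key inequality for later indices -/
theorem later {n m : ℕ} (h : n < m) : aa m * bb n + mu m ^ 2 ≤ sig n := by
  have h1 := aa_le m
  have h2 := bb_le n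
  have h3 := mu_pow h
  have h4 := mu_pos m
  have h5 := mu_le m
  have h6 := mu_pos n
  have h7 := mu_le n
  have h8 := aa_pos m
  have h9 := bb_pos n
  have h10 : aa m * bb n ≤ 9 / 4 * mu m := by nlinarith
  have h11 : mu m ^ 2 ≤ 1 / 16 * mu m := by nlinarith
  have h12 : mu n ^ 4 ≤ 1 / 16 * mu n ^ 3 := by
    have : 0 < mu n ^ 3 := by positivity
    calc mu n ^ 4 = mu n * mu n ^ 3 := by ring
      _ ≤ 1 / 16 * mu n ^ 3 := by gcongr
  have h13 : 0 < mu n ^ 3 := by positivity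
  unfold sig
  nlinarith

/-- the key inequality for earlier indices -/
theorem earlier {n m : ℕ} (h : m < n) : aa m * bb n ≤ tau m / 2 := by
  have h1 := bb_lt h
  have h2 := aa_mul m
  have h3 := aa_pos m
  have h4 := sig_le m
  have h5 : tau m = 8 * mu m ^ 2 := rfl
  have h6 := mu_pos m
  have h7 : aa m * bb n ≤ aa m * (bb m / 4) := by gcongr
  nlinarith [sq_nonneg (mu m)]

section Dense

variable (𝕜 : Type) [RCLike 𝕜]

/-- a sequence in the product of a ball and the unit circle, all the values of a dense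
sequence being taken infinitely often -/
abbrev QQ : Type := (closedBall (0 : 𝕜) (3 / 5)) × (sphere (0 : 𝕜) 1)

instance : Nonempty (QQ 𝕜) :=
  ⟨⟨⟨0, mem_closedBall_self (by norm_num)⟩, ⟨1, by simp⟩⟩⟩

noncomputable def pq (n : ℕ) : QQ 𝕜 := TopologicalSpace.denseSeq (QQ 𝕜) (Nat.unpair n).1

theorem pq_dense (q : QQ 𝕜) {ε : ℝ} (hε : 0 < ε) (M : ℕ) :
    ∃ n, M ≤ n ∧ ‖((pq 𝕜 n).1 : 𝕜) - q.1‖ < ε ∧ ‖((pq 𝕜 n).2 : 𝕜) - q.2‖ < ε := by
  obtain ⟨k, hk⟩ := (TopologicalSpace.denseRange_denseSeq (QQ 𝕜)).exists_dist_lt q hε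
  refine ⟨Nat.pair k M, Nat.right_le_pair k M, ?_, ?_⟩
  · have h1 : dist (TopologicalSpace.denseSeq (QQ 𝕜) k).1 q.1 < ε := by
      refine lt_of_le_of_lt ?_ hk
      rw [dist_comm]
      exact le_max_left _ _
    rw [pq, Nat.unpair_pair, ← dist_eq_norm]
    exact h1
  · have h1 : dist (TopologicalSpace.denseSeq (QQ 𝕜) k).2 q.2 < ε := by
      refine lt_of_le_of_lt ?_ hk
      rw [dist_comm]
      exact le_max_right _ _
    rw [pq, Nat.unpair_pair, ← dist_eq_norm]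
    exact h1

noncomputable def cc (n : ℕ) : 𝕜 := ((1 - bb n : ℝ) : 𝕜) * (pq 𝕜 n).1
noncomputable def th (n : ℕ) : 𝕜 := (pq 𝕜 n).2
noncomputable def ee (n : ℕ) : 𝕜 := ((bb n : ℝ) : 𝕜) * (starRingEnd 𝕜) (th 𝕜 n)

theorem norm_th (n : ℕ) : ‖th 𝕜 n‖ = 1 :=
   mem_sphere_zero_iff_norm.1 (pq 𝕜 n).2.2
theorem norm_pq (n : ℕ) : ‖((pq 𝕜 n).1 : 𝕜)‖ ≤ 3 / 5 :=
   mem_closedBall_zero_iff.1 (pq 𝕜 n).1.2
theorem norm_ee (n : ℕ) : ‖ee 𝕜 n‖ = bb n := by
  rw [ee, norm_mul, RCLike.norm_conj, norm_th, RCLike.norm_ofReal, abs_of_pos (bb_pos n), mul_one]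
theorem norm_cc (n : ℕ) : ‖cc 𝕜 n‖ ≤ (1 - bb n) * (3 / 5) := by
  have h := bb_le n
  rw [cc, norm_mul, RCLike.norm_ofReal, abs_of_nonneg (by linarith)]
  have := norm_pq 𝕜 n
  gcongr
  linarith

end Dense

end Pool.Agent.V1176.UC
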