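import Pool.Agent.V1176.UC.Par

/-! # The space -/

set_option autoImplicit false

namespace Pool.Agent.V1176.UC

open Filter Topology Metric BoundedContinuousFunction


theorem le_add3 {x a b c : ℝ} (ha : 0 ≤ a) (hb : 0 ≤ b) (hc : 0 ≤ c)
    (h : x ^ 2 = a ^ 2 + b ^ 2 + c ^ 2) : x ≤ a + b + c := by
  by_contra hcon
  push Not at hcon
  have h1 : (a + b + c) ^ 2 < x ^ 2 := by
    apply pow_lt_pow_left₀ hcon (by positivity) (by norm_num)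
  nlinarith [mul_nonneg ha hb, mul_nonneg ha hc, mul_nonneg hb hc]

section

variable (𝕜 : Type) [RCLike 𝕜]

/-- the underlying vector space and the Hilbert space of the values -/
abbrev VV : Type := Fin 3 → 𝕜
abbrev EE : Type := EuclideanSpace 𝕜 (Fin 3)

variable {𝕜}

noncomputable def LL (n : ℕ) (v : VV 𝕜) : 𝕜 :=
  ((1 - tau n : ℝ) : 𝕜) * v 2 + ((aa n : ℝ) : 𝕜) * th 𝕜 n * v 1

/-- the components of the embedding -/
noncomputable def AA : ℕ → VV 𝕜 → EE 𝕜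
  | 0, v => !₂[v 2, 0, 0]
  | 1, v => !₂[v 0, v 1, ((4 / 5 : ℝ) : 𝕜) * v 2]
  | (n + 2), v => !₂[LL n v, ((mu n : ℝ) : 𝕜) * (v 0 - cc 𝕜 n * v 2),
      ((mu n : ℝ) : 𝕜) * (v 1 - ee 𝕜 n * v 2)]

theorem AA_add (k : ℕ) (v w : VV 𝕜) : AA k (v + w) = AA k v + AA k w := by
  match k with
  | 0 => ext i; fin_cases i <;> simp [AA]
  | 1 => ext i; fin_cases i <;> simp [AA]; ring
  | (n + 2) => ext i; fin_cases i <;> simp [AA, LL] <;> ring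

theorem AA_smul (k : ℕ) (c : 𝕜) (v : VV 𝕜) : AA k (c • v) = c • AA k v := by
  match k with
  | 0 => ext i; fin_cases i <;> simp [AA]
  | 1 => ext i; fin_cases i <;> simp [AA]; ring
  | (n + 2) => ext i; fin_cases i <;> simp [AA, LL] <;> ring

theorem norm_sq3 (a b c : 𝕜) : ‖(!₂[a, b, c] : EE 𝕜)‖ ^ 2 = ‖a‖ ^ 2 + ‖b‖ ^ 2 + ‖c‖ ^ 2 := by
  rw [EuclideanSpace.norm_sq_eq, Fin.sum_univ_three]
  simp

theorem norm_AA0 (v : VV 𝕜) : ‖AA 0 v‖ = ‖v 2‖ := by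
  have h := norm_sq3 (v 2) 0 0
  have h2 : ‖AA 0 v‖ ^ 2 = ‖v 2‖ ^ 2 := by
    rw [AA, h]; simp
  exact (pow_left_inj₀ (norm_nonneg _) (norm_nonneg _) (by norm_num)).1 h2

theorem norm_AA1 (v : VV 𝕜) : ‖AA 1 v‖ ^ 2 = ‖v 0‖ ^ 2 + ‖v 1‖ ^ 2 + 16 / 25 * ‖v 2‖ ^ 2 := by
  rw [AA, norm_sq3, norm_mul, RCLike.norm_ofReal, abs_of_pos (by norm_num : (0 : ℝ) < 4 / 5)]
  ring

theorem norm_AA2 (n : ℕ) (v : VV 𝕜) : ‖AA (n + 2) v‖ ^ 2 = ‖LL n v‖ ^ 2 +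
    mu n ^ 2 * ‖v 0 - cc 𝕜 n * v 2‖ ^ 2 + mu n ^ 2 * ‖v 1 - ee 𝕜 n * v 2‖ ^ 2 := by
  rw [AA, norm_sq3, norm_mul, norm_mul, RCLike.norm_ofReal, abs_of_pos (mu_pos n)]
  ring

theorem norm_LL_le (n : ℕ) (v : VV 𝕜) : ‖LL n v‖ ≤ ‖v 2‖ + aa n * ‖v 1‖ := by
  unfold LL
  refine le_trans (norm_add_le _ _) ?_
  have h1 := tau_pos n
  have h2 := tau_le n
  rw [norm_mul, norm_mul, norm_mul, RCLike.norm_ofReal, RCLike.norm_ofReal, norm_th, mul_one,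
    abs_of_pos (aa_pos n), abs_of_nonneg (by linarith)]
  have h3 : (1 - tau n) * ‖v 2‖ ≤ 1 * ‖v 2‖ := by gcongr; linarith
  linarith

theorem norm_cc_le (n : ℕ) : ‖cc 𝕜 n‖ ≤ 3 / 5 := by
  have h1 := norm_cc 𝕜 n
  have h2 := bb_pos n
  nlinarith

theorem norm_ee_le (n : ℕ) : ‖ee 𝕜 n‖ ≤ 1 / 4 := by
  rw [norm_ee]; exact bb_le n

/-- the size -/
noncomputable def M3 (v : VV 𝕜) : ℝ := ‖v 0‖ + ‖v 1‖ + ‖v 2‖

theorem M3_nonneg (v : VV 𝕜) : 0 ≤ M3 v := by unfold M3; positivity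

theorem norm_AA_add2 (n : ℕ) (v : VV 𝕜) : ‖AA (n + 2) v‖ ≤ ‖v 2‖ + 10 * mu n * M3 v := by
  have h1 := norm_AA2 n v
  have h2 := norm_LL_le n v
  have h3 : ‖v 0 - cc 𝕜 n * v 2‖ ≤ ‖v 0‖ + ‖v 2‖ := by
    refine le_trans (norm_sub_le _ _) ?_
    rw [norm_mul]
    have := norm_cc_le (𝕜 := 𝕜) n
    nlinarith [norm_nonneg (v 2)]
  have h4 : ‖v 1 - ee 𝕜 n * v 2‖ ≤ ‖v 1‖ + ‖v 2‖ := by
    refine le_trans (norm_sub_le _ _) ?_
    rw [norm_mul]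
    have := norm_ee_le (𝕜 := 𝕜) n
    nlinarith [norm_nonneg (v 2)]
  have h5 := mu_pos n
  have h6 : ‖AA (n + 2) v‖ ≤ ‖LL n v‖ + mu n * ‖v 0 - cc 𝕜 n * v 2‖ +
      mu n * ‖v 1 - ee 𝕜 n * v 2‖ := by
    refine le_add3 (norm_nonneg _) (by positivity) (by positivity) ?_
    rw [h1]; ring
  have h7 : aa n * ‖v 1‖ ≤ 9 * mu n * ‖v 1‖ := by gcongr; exact aa_le n
  have h8 : mu n * ‖v 0 - cc 𝕜 n * v 2‖ ≤ mu n * (‖v 0‖ + ‖v 2‖) := by gcongr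
  have h9 : mu n * ‖v 1 - ee 𝕜 n * v 2‖ ≤ mu n * (‖v 1‖ + ‖v 2‖) := by gcongr
  unfold M3
  nlinarith [mul_nonneg h5.le (norm_nonneg (v 0)), mul_nonneg h5.le (norm_nonneg (v 1)),
    mul_nonneg h5.le (norm_nonneg (v 2))]

theorem norm_AA_le (k : ℕ) (v : VV 𝕜) : ‖AA k v‖ ≤ 2 * M3 v := by
  match k with
  | 0 =>
    rw [norm_AA0]
    unfold M3
    linarith [norm_nonneg (v 0), norm_nonneg (v 1), norm_nonneg (v 2)]
  | 1 =>
    have h1 := norm_AA1 v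
    have h2 : ‖AA 1 v‖ ≤ ‖v 0‖ + ‖v 1‖ + 4 / 5 * ‖v 2‖ := by
      refine le_add3 (norm_nonneg _) (norm_nonneg _) (by positivity) ?_
      rw [h1]; ring
    unfold M3
    linarith [norm_nonneg (v 0), norm_nonneg (v 1), norm_nonneg (v 2)]
  | (n + 2) =>
    have h1 := norm_AA_add2 n v
    have h2 := mu_le n
    have h3 := mu_pos n
    have h4 := M3_nonneg v
    have h5 : 10 * mu n * M3 v ≤ 10 * (1 / 16) * M3 v := by gcongr
    have h6 : ‖v 2‖ ≤ M3 v := by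
      unfold M3; linarith [norm_nonneg (v 0), norm_nonneg (v 1)]
    linarith

variable (𝕜)

/-- the embedding into the space of bounded sequences in a Hilbert space -/
noncomputable def JJ : VV 𝕜 →ₗ[𝕜] (ℕ →ᵇ EE 𝕜) where
  toFun v := BoundedContinuousFunction.ofNormedAddCommGroupDiscrete (fun k => AA k v)
    (2 * M3 v) (fun k => norm_AA_le k v)
  map_add' v w := by ext k : 1; exact AA_add k v w
  map_smul' c v := by ext k : 1; exact AA_smul k c v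

/-- the space of dimension three -/
def XX : Type := LinearMap.range (JJ 𝕜)

noncomputable instance : NormedAddCommGroup (XX 𝕜) :=
  inferInstanceAs (NormedAddCommGroup (LinearMap.range (JJ 𝕜)))

noncomputable instance : NormedSpace 𝕜 (XX 𝕜) :=
  inferInstanceAs (NormedSpace 𝕜 (LinearMap.range (JJ 𝕜)))

instance : FiniteDimensional 𝕜 (XX 𝕜) :=
  inferInstanceAs (FiniteDimensional 𝕜 (LinearMap.range (JJ 𝕜)))

variable {𝕜}

noncomputable def el (v : VV 𝕜) : XX 𝕜 := ⟨JJ 𝕜 v, v, rfl⟩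

theorem el_surj (x : XX 𝕜) : ∃ v, el v = x := by
  obtain ⟨x, v, rfl⟩ := x
  exact ⟨v, rfl⟩

theorem el_add (v w : VV 𝕜) : el (v + w) = el v + el w := Subtype.ext (map_add (JJ 𝕜) v w)
theorem el_smul (c : 𝕜) (v : VV 𝕜) : el (c • v) = c • el v := Subtype.ext (map_smul (JJ 𝕜) c v)
theorem el_sub (v w : VV 𝕜) : el (v - w) = el v - el w := Subtype.ext (map_sub (JJ 𝕜) v w)

theorem AA_le_el (v : VV 𝕜) (k : ℕ) : ‖AA k v‖ ≤ ‖el v‖ :=
  BoundedContinuousFunction.norm_coe_le_norm (JJ 𝕜 v) k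

theorem el_le {v : VV 𝕜} {C : ℝ} (h0 : 0 ≤ C) (h : ∀ k, ‖AA k v‖ ≤ C) : ‖el v‖ ≤ C :=
  (BoundedContinuousFunction.norm_le h0).2 h

theorem el_le_M3 (v : VV 𝕜) : ‖el v‖ ≤ 2 * M3 v :=
  el_le (by have := M3_nonneg v; positivity) fun k => norm_AA_le k v

/-- the functionals on the space given by the inner product with a component -/
noncomputable def gf (k : ℕ) (w : EE 𝕜) : XX 𝕜 →L[𝕜] 𝕜 :=
  (innerSL 𝕜 w).comp ((BoundedContinuousFunction.evalCLM 𝕜 k).comp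
    (show XX 𝕜 →L[𝕜] (ℕ →ᵇ EE 𝕜) from (LinearMap.range (JJ 𝕜)).subtypeL))

theorem gf_el (k : ℕ) (w : EE 𝕜) (v : VV 𝕜) : gf k w (el v) = inner 𝕜 w (AA k v) := rfl

theorem norm_gf_le (k : ℕ) (w : EE 𝕜) : ‖gf k w‖ ≤ ‖w‖ := by
  refine ContinuousLinearMap.opNorm_le_bound _ (norm_nonneg _) fun x => ?_
  obtain ⟨v, rfl⟩ := el_surj x
  rw [gf_el]
  refine le_trans (norm_inner_le_norm _ _) ?_
  gcongr
  exact AA_le_el v k

theorem LL_unit (n : ℕ) (s e : 𝕜) : LL n ![s, e, 1] = ((1 - tau n : ℝ) : 𝕜) +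
    ((aa n : ℝ) : 𝕜) * th 𝕜 n * e := by
  simp [LL]

theorem eq_zero_of_AA {k : ℕ} (hk : 1 ≤ k) {v : VV 𝕜} (h : AA k v = 0) : v = 0 := by
  match k, hk with
  | 1, _ =>
    have h1 := norm_AA1 v
    rw [h, norm_zero] at h1
    have h2 : ‖v 0‖ ^ 2 = 0 := by nlinarith [sq_nonneg ‖v 0‖, sq_nonneg ‖v 1‖, sq_nonneg ‖v 2‖]
    have h3 : ‖v 1‖ ^ 2 = 0 := by nlinarith [sq_nonneg ‖v 0‖, sq_nonneg ‖v 1‖, sq_nonneg ‖v 2‖]
    have h4 : ‖v 2‖ ^ 2 = 0 := by nlinarith [sq_nonneg ‖v 0‖, sq_nonneg ‖v 1‖, sq_nonneg ‖v 2‖]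
    ext i
    fin_cases i
    · simpa using h2
    · simpa using h3
    · simpa using h4
  | (n + 2), _ =>
    have h1 := norm_AA2 n v
    rw [h, norm_zero] at h1
    have hm := mu_pos n
    have hm2 : 0 < mu n ^ 2 := by positivity
    have p1 : 0 ≤ mu n ^ 2 * ‖v 0 - cc 𝕜 n * v 2‖ ^ 2 := by positivity
    have p2 : 0 ≤ mu n ^ 2 * ‖v 1 - ee 𝕜 n * v 2‖ ^ 2 := by positivity
    have p3 := sq_nonneg ‖LL n v‖
    have h2 : ‖LL n v‖ ^ 2 = 0 := by linarith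
    have h3 : mu n ^ 2 * ‖v 0 - cc 𝕜 n * v 2‖ ^ 2 = 0 := by linarith
    have h4 : mu n ^ 2 * ‖v 1 - ee 𝕜 n * v 2‖ ^ 2 = 0 := by linarith
    have h5 : v 0 = cc 𝕜 n * v 2 := by
      have : ‖v 0 - cc 𝕜 n * v 2‖ ^ 2 = 0 := by
        rcases mul_eq_zero.1 h3 with h | h
        · exact absurd h hm2.ne'
        · exact h
      have := pow_eq_zero_iff (two_ne_zero) |>.1 this
      exact sub_eq_zero.1 (norm_eq_zero.1 this)
    have h6 : v 1 = ee 𝕜 n * v 2 := by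
      have : ‖v 1 - ee 𝕜 n * v 2‖ ^ 2 = 0 := by
        rcases mul_eq_zero.1 h4 with h | h
        · exact absurd h hm2.ne'
        · exact h
      have := pow_eq_zero_iff (two_ne_zero) |>.1 this
      exact sub_eq_zero.1 (norm_eq_zero.1 this)
    have h7 : LL n v = 0 := norm_eq_zero.1 (pow_eq_zero_iff (two_ne_zero) |>.1 h2)
    have h8 : th 𝕜 n * (starRingEnd 𝕜) (th 𝕜 n) = 1 := by
      rw [RCLike.mul_conj, norm_th]; simp
    have h9 : LL n v = ((1 + sig n : ℝ) : 𝕜) * v 2 := by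
      have h10 : ((aa n : ℝ) : 𝕜) * ((bb n : ℝ) : 𝕜) = ((tau n : ℝ) : 𝕜) + ((sig n : ℝ) : 𝕜) := by
        rw [← RCLike.ofReal_mul, aa_mul, RCLike.ofReal_add]
      rw [LL, h6, ee]
      rw [show ((aa n : ℝ) : 𝕜) * th 𝕜 n * (((bb n : ℝ) : 𝕜) * (starRingEnd 𝕜) (th 𝕜 n) * v 2) =
        (((aa n : ℝ) : 𝕜) * ((bb n : ℝ) : 𝕜)) * (th 𝕜 n * (starRingEnd 𝕜) (th 𝕜 n)) * v 2 by ring,
        h8, h10]
      push_cast
      ring
    have h10 : v 2 = 0 := by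
      rw [h9] at h7
      rcases mul_eq_zero.1 h7 with h | h
      · exfalso
        have h11 : (1 + sig n : ℝ) = 0 := by exact_mod_cast h
        have := sig_pos n
        linarith
      · exact h
    ext i
    fin_cases i
    · simp [h5, h10]
    · simp [h6, h10]
    · simp [h10]

/-- points of the sphere where one of the Hilbertian norms equals one are exposed -/
theorem exposed_of_norm {k : ℕ} (hk : 1 ≤ k) {v : VV 𝕜} (h1 : ‖el v‖ = 1) (h2 : ‖AA k v‖ = 1) :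
    Exposed 𝕜 (el v) := by
  refine ⟨h1, gf k (AA k v), (norm_gf_le k _).trans h2.le, ?_, ?_⟩
  · rw [gf_el, inner_self_eq_norm_sq_to_K, h2]; simp
  · intro x hx hgx
    obtain ⟨u, rfl⟩ := el_surj x
    rw [gf_el] at hgx
    have h3 : ‖AA k u‖ ≤ 1 := (AA_le_el u k).trans hx
    have h4 : ‖AA k v - AA k u‖ ^ 2 ≤ 0 := by
      rw [@norm_sub_sq 𝕜, hgx, h2, RCLike.one_re]
      nlinarith [norm_nonneg (AA k u)]
    have h5 : AA k v - AA k u = 0 := by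
      have : ‖AA k v - AA k u‖ ^ 2 = 0 := le_antisymm h4 (sq_nonneg _)
      exact norm_eq_zero.1 (pow_eq_zero_iff (two_ne_zero) |>.1 this)
    have h6 : AA k (u - v) = 0 := by
      rw [sub_eq_add_neg, AA_add, show -v = (-1 : 𝕜) • v by simp, AA_smul, neg_one_smul,
        ← sub_eq_add_neg, ← neg_sub, h5, neg_zero]
    have h7 := eq_zero_of_AA hk h6
    rw [sub_eq_zero.1 h7]

end

end Pool.Agent.V1176.UC
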